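import Pool.Agent.H377R2.NK.Ent
import Pool.Agent.Y966.NZ.Basic2

/-!
Task U6b of h377_tasks (helper496): Gibbs inequalities for the Gibbs law, `law_X`, `law_sum`.
-/

set_option autoImplicit false
set_option linter.unusedVariables false

namespace Pool.Agent.Y966.NZ

open Finset Pool.Agent.H320R2.PD Pool.Agent.H377R2.NK

namespace Law2

variable {p q A k m M : ℕ} {z : ℝ} [hz : Fact (ZC p z)]

/-- weighted number of admissible words -/
noncomputable def vv (p : ℕ) (z : ℝ) (M A k : ℕ) (a : ℤ) : ℝ := ∑ u ∈ VS p M A k a, zw p z u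

theorem mem_VS {x : ℤ} {u : List ℕ} : u ∈ VS p M A k x ↔ u ∈ VW p A k x ∧ u.sum ≤ M * k := by
  unfold VS; rw [mem_filter]

theorem mem_Gs {ω : ℕ × List ℕ} :
    ω ∈ Gs p M A k m ↔ ω.1 < p ^ (k + m) ∧ ω.2 ∈ VS p M A k (ω.1 : ℤ) := by
  unfold Gs
  rw [mem_filter, mem_product, mem_range]
  constructor
  · rintro ⟨⟨h1, _⟩, h2⟩
    exact ⟨h1, h2⟩
  · rintro ⟨h1, h2⟩
    refine ⟨⟨h1, ?_⟩, h2⟩
    have := (mem_VS.1 h2).1
    unfold VW at this
    exact (mem_filter.1 this).1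

theorem sum_Gs (F : ℕ × List ℕ → ℝ) :
    ∑ ω ∈ Gs p M A k m, F ω = ∑ x ∈ range (p ^ (k + m)), ∑ u ∈ VS p M A k (x : ℤ), F (x, u) :=
  Finset.sum_finset_product _ _ (fun x : ℕ => VS p M A k (x : ℤ))
    (fun ω => by rw [mem_Gs, mem_range])

theorem sum_words (x : ℕ) (hq : 1 ≤ q) :
    ∑ u ∈ VS p M A k (x : ℤ), Gw p z M A k m q (x, u) = GG p z M A k m (x : ℤ) ^ q / ZG p z M A k m q := by
  unfold Gw
  simp only []
  rw [← Finset.sum_div, ← Finset.mul_sum]
  congr 1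
  have h : GG p z M A k m (x : ℤ) = ∑ w ∈ VS p M A k (x : ℤ), zw p z w * DD p z A m (en p w (x : ℤ)) :=
    rfl
  rw [← h, ← pow_succ]
  congr 1; omega

theorem odd' (hp : p = 3 ∨ p = 5) : Odd p := by
  rcases hp with h | h <;> (subst h; decide)

theorem Gw_nonneg' (hp : p = 3 ∨ p = 5) (hG : 0 < ZG p z M A k m q) (ω : ℕ × List ℕ) :
    0 ≤ Gw p z M A k m q ω := by
  unfold Gw
  have := zw_pos (p := p) (z := z) ω.2
  have := GG_nonneg (p := p) (M := M) (z := z) A k m (ω.1 : ℤ)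
  have := DD_nonneg (p := p) (z := z) A m (en p ω.2 (ω.1 : ℤ))
  positivity

theorem Gw_total' (hp : p = 3 ∨ p = 5) (hq : 1 ≤ q) (hG : 0 < ZG p z M A k m q) :
    ∑ ω ∈ Gs p M A k m, Gw p z M A k m q ω = 1 := by
  rw [sum_Gs]
  simp_rw [sum_words _ hq]
  rw [← Finset.sum_div]
  exact div_self hG.ne'

/-- the factors are positive where the law charges -/
theorem pos_of_ne (hp : p = 3 ∨ p = 5) {ω : ℕ × List ℕ} (hω : ω ∈ Gs p M A k m)
    (h : Gw p z M A k m q ω ≠ 0) :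
    0 < DD p z A m (en p ω.2 (ω.1 : ℤ)) ∧ 0 < GG p z M A k m (ω.1 : ℤ) := by
  have h0 := zw_pos (p := p) (z := z) ω.2
  have h1 : DD p z A m (en p ω.2 (ω.1 : ℤ)) ≠ 0 := by
    intro h2
    apply h
    unfold Gw
    rw [h2]; simp
  have h2 : 0 < DD p z A m (en p ω.2 (ω.1 : ℤ)) :=
    lt_of_le_of_ne (DD_nonneg A m (en p ω.2 (ω.1 : ℤ))) (Ne.symm h1)
  refine ⟨h2, ?_⟩
  have h3 : zw p z ω.2 * DD p z A m (en p ω.2 (ω.1 : ℤ)) ≤ GG p z M A k m (ω.1 : ℤ) := by
    unfold GG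
    refine Finset.single_le_sum (f := fun w => zw p z w * DD p z A m (en p w (ω.1 : ℤ)))
      (fun w _ => ?_) (mem_Gs.1 hω).2
    exact mul_nonneg (zw_nonneg _) (DD_nonneg _ _ _)
  exact lt_of_lt_of_le (by positivity) h3

theorem mm_ite {Ω α : Type*} [DecidableEq α] (s : Finset Ω) (w : Ω → ℝ) (f : Ω → α) (ω : Ω) :
    mm s w f ω = ∑ ω' ∈ s, if f ω' = f ω then w ω' else 0 := by
  unfold mm
  rw [Finset.sum_filter]
  refine Finset.sum_congr rfl fun x _ => ?_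
  by_cases h : f x = f ω <;> simp [h]

/-- mass of the atoms of the root -/
theorem mm_x (hq : 1 ≤ q) {ω : ℕ × List ℕ} (hω : ω ∈ Gs p M A k m) :
    mm (Gs p M A k m) (Gw p z M A k m q) (fun ω => ω.1) ω
      = GG p z M A k m (ω.1 : ℤ) ^ q / ZG p z M A k m q := by
  rw [mm_ite, sum_Gs]
  have h1 : ∀ x ∈ range (p ^ (k + m)), (∑ u ∈ VS p M A k (x : ℤ),
      if (x, u).1 = ω.1 then Gw p z M A k m q (x, u) else 0)
      = if x = ω.1 then GG p z M A k m (x : ℤ) ^ q / ZG p z M A k m q else 0 := by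
    intro x _
    by_cases h : x = ω.1
    · simp only [h, if_true]
      rw [sum_words _ hq]
    · simp [h]
  rw [Finset.sum_congr rfl h1, Finset.sum_ite_eq' (range (p ^ (k + m))) ω.1,
    if_pos (mem_range.2 (mem_Gs.1 hω).1)]

theorem mm_full {ω : ℕ × List ℕ} (hω : ω ∈ Gs p M A k m) (w : ℕ × List ℕ → ℝ) :
    mm (Gs p M A k m) w (fun ω => (ω.2, ω.1)) ω = w ω := by
  rw [mm_ite]
  have : ∀ ω' ∈ Gs p M A k m, (if (ω'.2, ω'.1) = (ω.2, ω.1) then w ω' else 0)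
      = if ω' = ω then w ω' else 0 := by
    intro ω' _
    have : (ω'.2, ω'.1) = (ω.2, ω.1) ↔ ω' = ω := by
      rw [Prod.mk.injEq, Prod.ext_iff]
      exact and_comm
    simp only [this]
  rw [Finset.sum_congr rfl this, Finset.sum_ite_eq', if_pos hω]

theorem mm_const (ω : ℕ × List ℕ) (w : ℕ × List ℕ → ℝ) :
    mm (Gs p M A k m) w (fun _ => ()) ω = ∑ ω ∈ Gs p M A k m, w ω := by
  rw [mm_ite]
  simp

/-- entropy of the root -/
theorem ent_x (hp : p = 3 ∨ p = 5) (hq : 2 ≤ q) (hG : 0 < ZG p z M A k m q) :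
    CE (Gs p M A k m) (Gw p z M A k m q) (fun ω => ω.1) (fun _ => ())
      = Real.log (ZG p z M A k m q)
        - q * ∑ ω ∈ Gs p M A k m, Gw p z M A k m q ω * Real.log (GG p z M A k m (ω.1 : ℤ)) := by
  rw [CE_eval (a := fun _ => 1) (b := fun ω => GG p z M A k m (ω.1 : ℤ) ^ q / ZG p z M A k m q)]
  · have h1 : ∀ ω ∈ Gs p M A k m, Gw p z M A k m q ω * (Real.log 1
        - Real.log (GG p z M A k m (ω.1 : ℤ) ^ q / ZG p z M A k m q))
        = Gw p z M A k m q ω * Real.log (ZG p z M A k m q)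
          - q * (Gw p z M A k m q ω * Real.log (GG p z M A k m (ω.1 : ℤ))) := by
      intro ω hω
      by_cases h : Gw p z M A k m q ω = 0
      · rw [h]; simp
      · obtain ⟨_, h2⟩ := pos_of_ne hp hω h
        rw [Real.log_div (by positivity) hG.ne', Real.log_pow, Real.log_one]
        ring
    rw [Finset.sum_congr rfl h1, Finset.sum_sub_distrib, ← Finset.sum_mul,
      Gw_total' hp (by omega) hG, one_mul, ← Finset.mul_sum]
  · intro ω hω _
    rw [mm_const, Gw_total' hp (by omega) hG]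
  · intro ω hω _
    rw [← mm_x (by omega) hω]
    refine mm_congr (f' := fun ω : ℕ × List ℕ => ω.1) ?_ ω hω
    intro a _ b _
    simp

/-- entropy of the word given the root -/
theorem ent_ux (hp : p = 3 ∨ p = 5) (hq : 2 ≤ q) (hG : 0 < ZG p z M A k m q) :
    CE (Gs p M A k m) (Gw p z M A k m q) (fun ω => ω.2) (fun ω => ω.1)
      = (∑ ω ∈ Gs p M A k m, Gw p z M A k m q ω * Real.log (GG p z M A k m (ω.1 : ℤ)))
        - (∑ ω ∈ Gs p M A k m, Gw p z M A k m q ω * Real.log (zw p z ω.2))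
        - ∑ ω ∈ Gs p M A k m, Gw p z M A k m q ω * Real.log (DD p z A m (en p ω.2 (ω.1 : ℤ))) := by
  rw [CE_eval (a := fun ω => GG p z M A k m (ω.1 : ℤ) ^ q / ZG p z M A k m q) (b := Gw p z M A k m q)]
  · rw [← Finset.sum_sub_distrib, ← Finset.sum_sub_distrib]
    refine Finset.sum_congr rfl fun ω hω => ?_
    by_cases h : Gw p z M A k m q ω = 0
    · rw [h]; simp
    · obtain ⟨h1, h2⟩ := pos_of_ne hp hω h
      have h0 := zw_pos (p := p) (z := z) ω.2
      have h3 : Real.log (Gw p z M A k m q ω) = ((q : ℝ) - 1) * Real.log (GG p z M A k m (ω.1 : ℤ))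
          + (Real.log (zw p z ω.2) + Real.log (DD p z A m (en p ω.2 (ω.1 : ℤ))))
          - Real.log (ZG p z M A k m q) := by
        unfold Gw
        rw [Real.log_div (by positivity) hG.ne', Real.log_mul (by positivity) (by positivity),
          Real.log_mul (by positivity) (by positivity), Real.log_pow]
        rw [Nat.cast_sub (by omega)]
        push_cast
        ring
      rw [h3, Real.log_div (by positivity) hG.ne', Real.log_pow]
      ring
  · intro ω hω _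
    exact mm_x (by omega) hω
  · intro ω hω _
    exact mm_full hω _

theorem modcast (p k : ℕ) (hp : 1 ≤ p) (x : ℕ) :
    (x : ℤ) = ((x % p ^ k : ℕ) : ℤ) + (p : ℤ) ^ k * ((x / p ^ k : ℕ) : ℤ) := by
  have := Nat.mod_add_div x (p ^ k)
  have h : ((x % p ^ k + p ^ k * (x / p ^ k) : ℕ) : ℤ) = (x : ℤ) := by rw [this]
  push_cast at h ⊢
  exact h.symm

theorem VS_mod (hp : 1 ≤ p) (x : ℕ) :
    VS p M A k (x : ℤ) = VS p M A k ((x % p ^ k : ℕ) : ℤ) := by
  conv_lhs => rw [modcast p k hp x]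
  exact VS_shift A k _ _

theorem one_le' (hp : p = 3 ∨ p = 5) : 1 ≤ p := by omega

/-- length of an admissible word -/
theorem len_VS {x : ℤ} {u : List ℕ} (h : u ∈ VS p M A k x) : u.length = k :=
  (mem_VW.1 (mem_VS.1 h).1).1

theorem en_mod (hp : 1 ≤ p) {ω : ℕ × List ℕ} (hω : ω ∈ Gs p M A k m) :
    en p ω.2 (ω.1 : ℤ) = GX p k ω + GY p k ω := by
  have hl := len_VS (mem_Gs.1 hω).2
  unfold GX GY
  conv_lhs => rw [modcast p k hp ω.1, ← hl]
  rw [en_shift hp, hl]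

theorem vv_nonneg (hp : p = 3 ∨ p = 5) (a : ℤ) : 0 ≤ vv p z M A k a := by
  unfold vv
  exact Finset.sum_nonneg fun u _ => zw_nonneg _

theorem vv_pos (hp : p = 3 ∨ p = 5) {ω : ℕ × List ℕ} (hω : ω ∈ Gs p M A k m) :
    0 < vv p z M A k ((ω.1 % p ^ k : ℕ) : ℤ) := by
  unfold vv
  refine Finset.sum_pos (fun u _ => zw_pos _) ⟨ω.2, ?_⟩
  rw [← VS_mod (one_le' hp)]
  exact (mem_Gs.1 hω).2

theorem vv_le (hp : p = 3 ∨ p = 5) (a : ℤ) : vv p z M A k a ≤ DD p z A k a := by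
  unfold vv DD
  refine Finset.sum_le_sum_of_subset_of_nonneg ?_ (fun u _ _ => zw_nonneg _)
  intro u hu
  exact (mem_VS.1 hu).1

/-- Gibbs inequality for the word given the root mod `p^k` -/
theorem ent_ua (hp : p = 3 ∨ p = 5) (hG : 0 < ZG p z M A k m q) :
    CE (Gs p M A k m) (Gw p z M A k m q) (fun ω => ω.2) (fun ω => ω.1 % p ^ k)
      + (∑ ω ∈ Gs p M A k m, Gw p z M A k m q ω * Real.log (zw p z ω.2))
      ≤ ∑ ω ∈ Gs p M A k m, Gw p z M A k m q ω * Real.log (vv p z M A k ((ω.1 % p ^ k : ℕ) : ℤ)) := by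
  exact CE_gibbs (fun ω _ => Gw_nonneg' hp hG ω) (fun ω => ω.2) (fun ω => ω.1 % p ^ k)
    (fun a => VS p M A k (a : ℤ)) (fun u _ => zw p z u) (fun a => vv p z M A k (a : ℤ))
    (fun ω hω _ => by rw [← VS_mod (one_le' hp)]; exact (mem_Gs.1 hω).2)
    (fun ω hω _ a _ => zw_nonneg _) (fun ω hω _ => zw_pos _) (fun ω hω _ => le_rfl)

/-- Gibbs inequality for the root mod `p^k` -/
theorem ent_a (hp : p = 3 ∨ p = 5) (hq : 1 ≤ q) (hG : 0 < ZG p z M A k m q) (hA : 1 ≤ A) :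
    CE (Gs p M A k m) (Gw p z M A k m q) (fun ω => ω.1 % p ^ k) (fun _ => ())
      + q * (∑ ω ∈ Gs p M A k m, Gw p z M A k m q ω * Real.log (vv p z M A k ((ω.1 % p ^ k : ℕ) : ℤ)))
      ≤ Real.log (Zq p z A k q) := by
  have h := CE_gibbs (fun ω _ => Gw_nonneg' hp hG ω) (fun ω => ω.1 % p ^ k) (fun _ => ())
    (fun _ => range (p ^ k)) (fun a _ => vv p z M A k (a : ℤ) ^ q) (fun _ => Zq p z A k q)
    (s := Gs p M A k m)
    (fun ω hω _ => mem_range.2 (Nat.mod_lt _ (pow_pos (one_le' hp) _)))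
    (fun ω hω _ a _ => pow_nonneg (vv_nonneg hp _) _)
    (fun ω hω _ => pow_pos (vv_pos hp hω) _)
    (fun ω hω _ => Finset.sum_le_sum fun a _ =>
      pow_le_pow_left₀ (vv_nonneg hp _) (vv_le hp _) _)
  rw [← Finset.sum_mul, Gw_total' hp hq hG, one_mul] at h
  refine le_trans (le_of_eq ?_) h
  rw [Finset.mul_sum]
  congr 1
  refine Finset.sum_congr rfl fun ω _ => ?_
  rw [Real.log_pow]; ring

theorem ent_a_le (hp : p = 3 ∨ p = 5) (hq : 1 ≤ q) (hG : 0 < ZG p z M A k m q) :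
    CE (Gs p M A k m) (Gw p z M A k m q) (fun ω => ω.1 % p ^ k) (fun _ => ()) ≤ k * Real.log p := by
  have h := CE_le_log (s := Gs p M A k m) (fun ω _ => Gw_nonneg' (q := q) hp hG ω)
    (fun ω => ω.1 % p ^ k) (fun _ => ())
    (fun _ => range (p ^ k)) (N := p ^ k) (Nat.one_le_iff_ne_zero.2 (pow_pos (one_le' hp) _).ne')
    (fun ω hω => mem_range.2 (Nat.mod_lt _ (pow_pos (one_le' hp) _)))
    (fun ω hω => by rw [card_range])
  rw [Gw_total' hp hq hG, one_mul] at h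
  refine h.trans (le_of_eq ?_)
  rw [Nat.cast_pow, Real.log_pow]

theorem coprime_two (hp : p = 3 ∨ p = 5) (s : ℕ) : IsCoprime ((2 : ℤ) ^ s) (p : ℤ) := by
  apply IsCoprime.pow_left
  rcases hp with h | h
  · subst h; exact ⟨-1, 1, by norm_num⟩
  · subst h; exact ⟨-2, 1, by norm_num⟩

/-- Gibbs inequality for the root given the word and the root mod `p^k` -/
theorem ent_xau (hp : p = 3 ∨ p = 5) (hq : 1 ≤ q) (hG : 0 < ZG p z M A k m q) :
    CE (Gs p M A k m) (Gw p z M A k m q) (fun ω => ω.1) (fun ω => (ω.2, ω.1 % p ^ k))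
      + q * (∑ ω ∈ Gs p M A k m, Gw p z M A k m q ω * Real.log (DD p z A m (en p ω.2 (ω.1 : ℤ))))
      ≤ Real.log (Zq p z A m q) := by
  classical
  have hp1 := one_le' hp
  have hpk : 0 < p ^ k := pow_pos hp1 _
  have h := CE_gibbs (s := Gs p M A k m) (fun ω _ => Gw_nonneg' (q := q) hp hG ω)
    (fun ω => ω.1) (fun ω => (ω.2, ω.1 % p ^ k))
    (fun c => (range (p ^ m)).image (fun x' => c.2 + p ^ k * x'))
    (fun x c => DD p z A m (en p c.1 (x : ℤ)) ^ q) (fun _ => Zq p z A m q) ?_ ?_ ?_ ?_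
  · rw [← Finset.sum_mul, Gw_total' hp hq hG, one_mul] at h
    refine le_trans (le_of_eq ?_) h
    rw [Finset.mul_sum]
    congr 1
    refine Finset.sum_congr rfl fun ω _ => ?_
    simp only []
    rw [Real.log_pow]; ring
  · intro ω hω _
    simp only [mem_image, mem_range]
    refine ⟨ω.1 / p ^ k, ?_, Nat.mod_add_div _ _⟩
    have := (mem_Gs.1 hω).1
    rw [pow_add] at this
    exact Nat.div_lt_of_lt_mul this
  · intro ω hω _ a _
    exact pow_nonneg (DD_nonneg _ _ _) _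
  · intro ω hω h0
    exact pow_pos (pos_of_ne hp hω h0.ne').1 _
  · intro ω hω _
    simp only []
    rw [Finset.sum_image (by
      intro a _ b _ hab
      simp only [] at hab
      have : p ^ k * a = p ^ k * b := by omega
      exact Nat.eq_of_mul_eq_mul_left hpk this)]
    refine le_of_eq ?_
    unfold Zq
    have hl := len_VS (mem_Gs.1 hω).2
    have e : ∀ x' : ℕ, DD p z A m (en p ω.2 ((ω.1 % p ^ k + p ^ k * x' : ℕ) : ℤ)) ^ q
        = DD p z A m (en p ω.2 ((ω.1 % p ^ k : ℕ) : ℤ) + 2 ^ ω.2.sum * (x' : ℤ)) ^ q := by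
      intro x'
      have := en_shift hp1 (w := ω.2) ((ω.1 % p ^ k : ℕ) : ℤ) (x' : ℤ)
      rw [hl] at this
      rw [← this]
      push_cast
      rfl
    simp_rw [e]
    exact sum_affine hp1 m (2 ^ ω.2.sum) _ (coprime_two hp _) (h := fun y => DD p z A m y ^ q)
      (fun x y => by simp only [DD_shift])

/-- Gibbs inequality for the endpoint mod `p^m` -/
theorem ent_V (hp : p = 3 ∨ p = 5) (hq : 1 ≤ q) (hG : 0 < ZG p z M A k m q) :
    CE (Gs p M A k m) (Gw p z M A k m q) (fun ω => (GX p k ω + GY p k ω) % (p : ℤ) ^ m) (fun _ => ())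
      + q * (∑ ω ∈ Gs p M A k m, Gw p z M A k m q ω * Real.log (DD p z A m (en p ω.2 (ω.1 : ℤ))))
      ≤ Real.log (Zq p z A m q) := by
  classical
  have hp1 := one_le' hp
  have hpm : (0 : ℤ) < (p : ℤ) ^ m := by positivity
  have hV : ∀ ω ∈ Gs p M A k m, DD p z A m ((GX p k ω + GY p k ω) % (p : ℤ) ^ m)
      = DD p z A m (en p ω.2 (ω.1 : ℤ)) := by
    intro ω hω
    rw [en_mod hp1 hω]
    have := Int.emod_add_mul_ediv (GX p k ω + GY p k ω) ((p : ℤ) ^ m)
    conv_rhs => rw [← this]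
    rw [DD_shift]
  have h := CE_gibbs (s := Gs p M A k m) (fun ω _ => Gw_nonneg' (q := q) hp hG ω)
    (fun ω => (GX p k ω + GY p k ω) % (p : ℤ) ^ m) (fun _ => ())
    (fun _ => (range (p ^ m)).image (fun x : ℕ => (x : ℤ)))
    (fun y _ => DD p z A m y ^ q) (fun _ => Zq p z A m q) ?_ ?_ ?_ ?_
  · rw [← Finset.sum_mul, Gw_total' hp hq hG, one_mul] at h
    refine le_trans (le_of_eq ?_) h
    rw [Finset.mul_sum]
    congr 1
    refine Finset.sum_congr rfl fun ω hω => ?_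
    rw [Real.log_pow, hV ω hω]; ring
  · intro ω hω _
    simp only [mem_image, mem_range]
    refine ⟨((GX p k ω + GY p k ω) % (p : ℤ) ^ m).toNat, ?_, ?_⟩
    · have h1 := Int.emod_lt_of_pos (GX p k ω + GY p k ω) hpm
      have h2 := Int.emod_nonneg (GX p k ω + GY p k ω) hpm.ne'
      zify
      rw [Int.toNat_of_nonneg h2]
      exact_mod_cast h1
    · exact Int.toNat_of_nonneg (Int.emod_nonneg _ hpm.ne')
  · intro ω hω _ a _
    exact pow_nonneg (DD_nonneg _ _ _) _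
  · intro ω hω h0
    rw [hV ω hω]
    exact pow_pos (pos_of_ne hp hω h0.ne').1 _
  · intro ω hω _
    rw [Finset.sum_image (by intro a _ b _ hab; exact Nat.cast_injective hab)]
    exact le_rfl

/-- injectivity of the residue of the endpoint, given the root mod `p^k` and the size -/
theorem inj_X (hp : p = 3 ∨ p = 5) (hm : M * k ≤ m) {ω ω' : ℕ × List ℕ} (hω : ω ∈ Gs p M A k m)
    (hω' : ω' ∈ Gs p M A k m) (ha : ω.1 % p ^ k = ω'.1 % p ^ k) (hs : ω.2.sum = ω'.2.sum) :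
    GX p k ω % (p : ℤ) ^ m = GX p k ω' % (p : ℤ) ^ m ↔ ω.2 = ω'.2 := by
  have hp1 := one_le' hp
  constructor
  · intro h
    have hu := (mem_Gs.1 hω).2
    have hu' := (mem_Gs.1 hω').2
    rw [VS_mod hp1] at hu hu'
    obtain ⟨hl, hA, hd⟩ := mem_VW.1 (mem_VS.1 hu).1
    obtain ⟨hl', hA', hd'⟩ := mem_VW.1 (mem_VS.1 hu').1
    have hsz := (mem_VS.1 hu).2
    rw [← ha] at hd'
    unfold GX en at h
    rw [← ha, hl, hl', ← hs] at h
    rw [← hs] at hd'
    set a : ℤ := ((ω.1 % p ^ k : ℕ) : ℤ) with ha_def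
    have e1 := Int.mul_ediv_cancel' hd
    have e2 := Int.mul_ediv_cancel' hd'
    have h1 : (p : ℤ) ^ m ∣ (2 ^ ω.2.sum * a - (Wp p ω'.2 : ℤ)) / (p : ℤ) ^ k
        - (2 ^ ω.2.sum * a - (Wp p ω.2 : ℤ)) / (p : ℤ) ^ k := Int.ModEq.dvd h
    have h2 : (p : ℤ) ^ (k + m) ∣ (Wp p ω.2 : ℤ) - (Wp p ω'.2 : ℤ) := by
      have h3 := mul_dvd_mul_left ((p : ℤ) ^ k) h1
      rw [mul_sub, e1, e2, ← pow_add] at h3
      have e3 : (2 ^ ω.2.sum * a - (Wp p ω'.2 : ℤ)) - (2 ^ ω.2.sum * a - (Wp p ω.2 : ℤ))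
        = (Wp p ω.2 : ℤ) - (Wp p ω'.2 : ℤ) := by ring
      rwa [e3] at h3
    have h3p : 3 ≤ p := by omega
    have hpow : 2 ^ ω.2.sum * p ^ k ≤ p ^ (k + m) := by
      rw [pow_add, mul_comm]
      refine Nat.mul_le_mul_left _ ?_
      calc 2 ^ ω.2.sum ≤ 2 ^ m := Nat.pow_le_pow_right (by norm_num) (hsz.trans hm)
        _ ≤ p ^ m := Nat.pow_le_pow_left (by omega) m
    have b1 : Wp p ω.2 < p ^ (k + m) := by
      refine lt_of_lt_of_le (Wp_lt h3p (fun e he => (hA e he).1)) ?_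
      rw [hl]; exact hpow
    have b2 : Wp p ω'.2 < p ^ (k + m) := by
      refine lt_of_lt_of_le (Wp_lt h3p (fun e he => (hA' e he).1)) ?_
      rw [hl', ← hs]; exact hpow
    have h4 : Wp p ω.2 ≡ Wp p ω'.2 [MOD p ^ (k + m)] := by
      rw [Nat.ModEq.comm, Nat.modEq_iff_dvd]
      push_cast
      exact h2
    have h5 : Wp p ω.2 = Wp p ω'.2 := Nat.ModEq.eq_of_lt_of_lt h4 b1 b2
    exact Wp_inj (odd' hp) (fun e he => (hA e he).1) (fun e he => (hA' e he).1)
      (by rw [hl, hl']) hs h5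
  · intro h
    unfold GX
    rw [ha, h]

/-- injectivity of the high digits of the root -/
theorem inj_Y (hp : p = 3 ∨ p = 5) {ω ω' : ℕ × List ℕ} (hω : ω ∈ Gs p M A k m)
    (hω' : ω' ∈ Gs p M A k m) (ha : ω.1 % p ^ k = ω'.1 % p ^ k) (hs : ω.2.sum = ω'.2.sum) :
    GY p k ω % (p : ℤ) ^ m = GY p k ω' % (p : ℤ) ^ m ↔ ω.1 = ω'.1 := by
  have hp1 := one_le' hp
  constructor
  · intro h
    unfold GY at h
    have h1 : (p : ℤ) ^ m ∣ 2 ^ ω'.2.sum * ((ω'.1 / p ^ k : ℕ) : ℤ)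
        - 2 ^ ω.2.sum * ((ω.1 / p ^ k : ℕ) : ℤ) := Int.ModEq.dvd h
    rw [← hs, ← mul_sub] at h1
    have h2 : (p : ℤ) ^ m ∣ ((ω'.1 / p ^ k : ℕ) : ℤ) - ((ω.1 / p ^ k : ℕ) : ℤ) :=
      (IsCoprime.pow_left (coprime_two hp ω.2.sum).symm).dvd_of_dvd_mul_left h1
    have h3 : ω.1 / p ^ k ≡ ω'.1 / p ^ k [MOD p ^ m] := by
      rw [Nat.modEq_iff_dvd]
      push_cast at h2 ⊢
      exact h2
    have b1 := (mem_Gs.1 hω).1
    have b2 := (mem_Gs.1 hω').1
    rw [pow_add] at b1 b2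
    have h4 := Nat.ModEq.eq_of_lt_of_lt h3 (Nat.div_lt_of_lt_mul b1) (Nat.div_lt_of_lt_mul b2)
    rw [← Nat.mod_add_div ω.1 (p ^ k), ← Nat.mod_add_div ω'.1 (p ^ k), ha, h4]
  · intro h
    unfold GY
    rw [h, hs]

/-- all the numerical information about the Gibbs law -/
theorem numbers (hp : p = 3 ∨ p = 5) (hq : 2 ≤ q) (hk : 1 ≤ k) (hA : 1 ≤ A)
    (hG : 0 < ZG p z M A k m q) :
    ∃ J : ℝ, 0 ≤ J ∧ J ≤ GE p z M A k m q ∧
      CE (Gs p M A k m) (Gw p z M A k m q) (fun ω => ω.2) (fun ω => ω.1 % p ^ k)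
        - CE (Gs p M A k m) (Gw p z M A k m q) (fun ω => ω.2) (fun ω => ω.1) ≤ J ∧
      CE (Gs p M A k m) (Gw p z M A k m q) (fun ω => (GX p k ω + GY p k ω) % (p : ℤ) ^ m) (fun _ => ())
        - CE (Gs p M A k m) (Gw p z M A k m q) (fun ω => ω.1) (fun ω => (ω.2, ω.1 % p ^ k))
        ≤ GE p z M A k m q ∧
      ((p : ℝ) ^ k ≤ 2 ^ q * Zq p z A k q →
        k * Real.log (1 / (p * (1 - z))) - 2 * GE p z M A k m q - Real.log 2
          ≤ CE (Gs p M A k m) (Gw p z M A k m q) (fun ω => ω.2) (fun ω => ω.1)) := by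
  have hw : ∀ ω ∈ Gs p M A k m, 0 ≤ Gw p z M A k m q ω := fun ω _ => Gw_nonneg' hp hG ω
  have hq1 : 1 ≤ q := by omega
  have htot := Gw_total' hp hq1 hG
  set s := Gs p M A k m with hs
  set w := Gw p z M A k m q with hwdef
  -- the relation between the entropies
  have R1 : CE s w (fun ω => ω.1) (fun _ => ()) + CE s w (fun ω => ω.2) (fun ω => ω.1)
      = CE s w (fun ω => ω.1 % p ^ k) (fun _ => ())
        + CE s w (fun ω => ω.2) (fun ω => ω.1 % p ^ k)
        + CE s w (fun ω => ω.1) (fun ω => (ω.2, ω.1 % p ^ k)) := by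
    have c1 := CE_chain (s := s) (w := w) (fun ω => ω.2) (fun ω => ω.1) (fun _ => ())
    have c2 : CE s w (fun ω => ω.2) (fun ω => (ω.1, ())) = CE s w (fun ω => ω.2) (fun ω => ω.1) :=
      CE_congr (fun a _ b _ => by simp) (fun a _ b _ _ => Iff.rfl)
    have c3 := CE_chain (s := s) (w := w) (fun ω => (ω.2, ω.1)) (fun ω => ω.1 % p ^ k)
      (fun _ => ())
    have c4 : CE s w (fun ω => ((ω.2, ω.1), ω.1 % p ^ k)) (fun _ => ())
        = CE s w (fun ω => (ω.2, ω.1)) (fun _ => ()) := by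
      refine CE_congr (fun a _ b _ => Iff.rfl) (fun a _ b _ _ => ?_)
      simp only [Prod.mk.injEq]
      constructor
      · rintro ⟨h, _⟩; exact h
      · rintro ⟨h1, h2⟩; exact ⟨⟨h1, h2⟩, by rw [h2]⟩
    have c5 : CE s w (fun ω => (ω.2, ω.1)) (fun ω => (ω.1 % p ^ k, ()))
        = CE s w (fun ω => (ω.1, ω.2)) (fun ω => ω.1 % p ^ k) := by
      refine CE_congr (fun a _ b _ => by simp) (fun a _ b _ _ => ?_)
      simp only [Prod.mk.injEq]
      exact and_comm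
    have c6 := CE_chain (s := s) (w := w) (fun ω => ω.1) (fun ω => ω.2) (fun ω => ω.1 % p ^ k)
    linarith
  have i1 := ent_x (m := m) (k := k) (A := A) hp hq hG
  have i2 := ent_ux (m := m) (k := k) (A := A) hp hq hG
  have i3 := ent_ua (m := m) (k := k) (A := A) hp hG
  have i4 := ent_a (m := m) (k := k) (A := A) hp hq1 hG hA
  have i5 := ent_xau (m := m) (k := k) (A := A) hp hq1 hG
  have i6 := ent_V (m := m) (k := k) (A := A) hp hq1 hG
  have i7 := ent_a_le (m := m) (k := k) (A := A) hp hq1 hG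
  rw [← hs, ← hwdef] at i1 i2 i3 i4 i5 i6 i7
  have i8 : CE s w (fun ω => ω.2) (fun ω => ω.1)
      ≤ CE s w (fun ω => ω.2) (fun ω => ω.1 % p ^ k) :=
    CE_mono_right hw _ (fun a _ b _ h => by rw [h])
  have i9 : ∑ ω ∈ s, w ω * Real.log (zw p z ω.2) ≤ k * Real.log (p * (1 - z)) := by
    calc ∑ ω ∈ s, w ω * Real.log (zw p z ω.2) ≤ ∑ ω ∈ s, w ω * (k * Real.log (p * (1 - z))) := by
          refine Finset.sum_le_sum fun ω hω => mul_le_mul_of_nonneg_left ?_ (hw ω hω)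
          have hu := (mem_Gs.1 hω).2
          have h1 := len_VS hu
          have h2 := zw_le (p := p) (z := z) ω.2
            (fun e he => ((mem_VW.1 (mem_VS.1 hu).1).2.1 e he).1)
          rw [h1] at h2
          have h3 := Real.log_le_log (zw_pos ω.2) h2
          rwa [Real.log_pow] at h3
      _ = k * Real.log (p * (1 - z)) := by rw [← Finset.sum_mul, htot, one_mul]
  set EG := ∑ ω ∈ s, w ω * Real.log (GG p z M A k m (ω.1 : ℤ)) with hEG
  set EU := ∑ ω ∈ s, w ω * Real.log (zw p z ω.2) with hEU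
  set ED := ∑ ω ∈ s, w ω * Real.log (DD p z A m (en p ω.2 (ω.1 : ℤ))) with hED
  set EV := ∑ ω ∈ s, w ω * Real.log (vv p z M A k ((ω.1 % p ^ k : ℕ) : ℤ)) with hEV
  have hGE : GE p z M A k m q = Real.log (Zq p z A k q) + Real.log (Zq p z A m q)
    - Real.log (ZG p z M A k m q) := rfl
  have hqR : (2 : ℝ) ≤ q := by exact_mod_cast hq
  have hJ0 : 0 ≤ ED + EV - EG := by linarith
  have hJ1 : ((q : ℝ) - 1) * (ED + EV - EG) ≤ GE p z M A k m q := by
    rw [hGE]; nlinarith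
  have hJ2 : ED + EV - EG ≤ GE p z M A k m q := by nlinarith
  refine ⟨ED + EV - EG, hJ0, hJ2, by linarith, ?_, ?_⟩
  · have : CE s w (fun ω => ω.1) (fun ω => (ω.2, ω.1 % p ^ k))
        = CE s w (fun ω => ω.1) (fun _ => ()) + CE s w (fun ω => ω.2) (fun ω => ω.1)
          - CE s w (fun ω => ω.1 % p ^ k) (fun _ => ())
          - CE s w (fun ω => ω.2) (fun ω => ω.1 % p ^ k) := by linarith
    rw [this, hGE]
    nlinarith
  · intro h1
    have h2 : k * Real.log p ≤ q * Real.log 2 + Real.log (Zq p z A k q) := by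
      have hZ : 0 < Zq p z A k q := Zq_pos (odd' hp) A k q hA
      have hp0 : (0 : ℝ) < p := by exact_mod_cast one_le' hp
      have h3 := Real.log_le_log (by positivity) h1
      rwa [Real.log_pow, Real.log_mul (by positivity) hZ.ne', Real.log_pow] at h3
    have h4 : -(GE p z M A k m q) - q * Real.log 2 ≤ q * EV := by
      rw [hGE]
      nlinarith
    have hGE0 : 0 ≤ GE p z M A k m q := hJ0.trans hJ2
    have h5 : -(GE p z M A k m q) - Real.log 2 ≤ EV := by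
      by_contra hcon
      push Not at hcon
      nlinarith
    have h6 : Real.log (1 / (p * (1 - z))) = - Real.log (p * (1 - z)) := by
      rw [one_div, Real.log_inv]
    rw [h6, i2]
    linarith

end Law2

open Law2

variable {p q A k l M : ℕ} {z : ℝ} [hz : Fact (ZC p z)]

/-- the conditional entropy of `X` given `(Y,γ)` -/
theorem CE_X_Yg (hp : p = 3 ∨ p = 5) {m : ℕ} (hm : M * k ≤ m) (w : ℕ × List ℕ → ℝ) :
    CE (Gs p M A k m) w (fun ω => GX p k ω % (p : ℤ) ^ m)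
        (fun ω => (GY p k ω % (p : ℤ) ^ m, Gγ p k ω))
      = CE (Gs p M A k m) w (fun ω => ω.2) (fun ω => ω.1)
        - CE (Gs p M A k m) w (fun ω => ω.2.sum) (fun ω => ω.1) := by
  have c1 : CE (Gs p M A k m) w (fun ω => GX p k ω % (p : ℤ) ^ m)
        (fun ω => (GY p k ω % (p : ℤ) ^ m, Gγ p k ω))
      = CE (Gs p M A k m) w (fun ω => ω.2) (fun ω => (ω.2.sum, ω.1)) := by
    refine CE_congr (fun a ha b hb => ?_) (fun a ha b hb h => ?_)
    · simp only [Prod.mk.injEq, Gγ]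
      constructor
      · rintro ⟨h1, h2, h3⟩
        exact ⟨h3, (inj_Y hp ha hb h2 h3).1 h1⟩
      · rintro ⟨h1, h2⟩
        exact ⟨(inj_Y hp ha hb (by rw [h2]) h1).2 h2, by rw [h2], h1⟩
    · simp only [Prod.mk.injEq, Gγ] at h
      exact inj_X hp hm ha hb h.2.1 h.2.2
  have c2 := CE_chain (s := Gs p M A k m) (w := w) (fun ω => ω.2) (fun ω => ω.2.sum) (fun ω => ω.1)
  have c3 : CE (Gs p M A k m) w (fun ω => (ω.2, ω.2.sum)) (fun ω => ω.1)
      = CE (Gs p M A k m) w (fun ω => ω.2) (fun ω => ω.1) := by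
    refine CE_congr (fun a ha b hb => Iff.rfl) (fun a ha b hb h => ?_)
    simp only [Prod.mk.injEq]
    constructor
    · rintro ⟨h, _⟩; exact h
    · intro h; exact ⟨h, by rw [h]⟩
  linarith

/-- the conditional entropy of `X` given `γ` -/
theorem CE_X_g (hp : p = 3 ∨ p = 5) {m : ℕ} (hm : M * k ≤ m) (w : ℕ × List ℕ → ℝ) :
    CE (Gs p M A k m) w (fun ω => GX p k ω % (p : ℤ) ^ m) (Gγ p k)
      = CE (Gs p M A k m) w (fun ω => ω.2) (fun ω => ω.1 % p ^ k)
        - CE (Gs p M A k m) w (fun ω => ω.2.sum) (fun ω => ω.1 % p ^ k) := by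
  have c1 : CE (Gs p M A k m) w (fun ω => GX p k ω % (p : ℤ) ^ m) (Gγ p k)
      = CE (Gs p M A k m) w (fun ω => ω.2) (fun ω => (ω.2.sum, ω.1 % p ^ k)) := by
    refine CE_congr (fun a ha b hb => ?_) (fun a ha b hb h => ?_)
    · simp only [Prod.mk.injEq, Gγ]
      exact and_comm
    · simp only [Gγ, Prod.mk.injEq] at h
      exact inj_X hp hm ha hb h.1 h.2
  have c2 := CE_chain (s := Gs p M A k m) (w := w) (fun ω => ω.2) (fun ω => ω.2.sum)
    (fun ω => ω.1 % p ^ k)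
  have c3 : CE (Gs p M A k m) w (fun ω => (ω.2, ω.2.sum)) (fun ω => ω.1 % p ^ k)
      = CE (Gs p M A k m) w (fun ω => ω.2) (fun ω => ω.1 % p ^ k) := by
    refine CE_congr (fun a ha b hb => Iff.rfl) (fun a ha b hb h => ?_)
    simp only [Prod.mk.injEq]
    constructor
    · rintro ⟨h, _⟩; exact h
    · intro h; exact ⟨h, by rw [h]⟩
  linarith

/-- (a) -/
theorem law_X (hp : p = 3 ∨ p = 5) (hq : 2 ≤ q) (hk : 1 ≤ k) (hA : 1 ≤ A)
    (hG : 0 < ZG p z M A k (M * k) q) (h1 : (p : ℝ) ^ k ≤ 2 ^ q * Zq p z A k q) :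
    k * Real.log (1 / (p * (1 - z))) - 3 * GE p z M A k (M * k) q - Real.log 2 - Real.log (M * k + 1)
      ≤ CE (Gs p M A k (M * k)) (Gw p z M A k (M * k) q) (fun ω => GX p k ω % (p : ℤ) ^ (M * k))
          (fun ω => (GY p k ω % (p : ℤ) ^ (M * k), Gγ p k ω)) := by
  obtain ⟨J, hJ0, hJ1, _, _, hJ4⟩ := numbers (m := M * k) hp hq hk hA hG
  have hJ4 := hJ4 h1
  rw [CE_X_Yg hp le_rfl]
  have h2 : CE (Gs p M A k (M * k)) (Gw p z M A k (M * k) q) (fun ω => ω.2.sum) (fun ω => ω.1)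
      ≤ Real.log (M * k + 1) := by
    have h := CE_le_log (s := Gs p M A k (M * k))
      (fun ω _ => Gw_nonneg' (q := q) hp hG ω) (fun ω => ω.2.sum) (fun ω => ω.1)
      (fun _ => range (M * k + 1)) (N := M * k + 1) (by omega)
      (fun ω hω => mem_range.2 (Nat.lt_succ_of_le (mem_VS.1 (mem_Gs.1 hω).2).2))
      (fun ω hω => by rw [card_range])
    rw [Gw_total' hp (by omega) hG, one_mul] at h
    push_cast at h
    exact h
  linarith

/-- (b) -/
theorem law_sum (hp : p = 3 ∨ p = 5) (hq : 2 ≤ q) (hk : 1 ≤ k) (hA : 1 ≤ A)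
    (hG : 0 < ZG p z M A k (M * k) q) :
    CE (Gs p M A k (M * k)) (Gw p z M A k (M * k) q)
        (fun ω => (GX p k ω + GY p k ω) % (p : ℤ) ^ (M * k)) (Gγ p k)
      + 2 * CE (Gs p M A k (M * k)) (Gw p z M A k (M * k) q)
        (fun ω => GX p k ω % (p : ℤ) ^ (M * k)) (Gγ p k)
      + CE (Gs p M A k (M * k)) (Gw p z M A k (M * k) q)
        (fun ω => GY p k ω % (p : ℤ) ^ (M * k)) (Gγ p k)
      - 2 * CE (Gs p M A k (M * k)) (Gw p z M A k (M * k) q)
        (fun ω => (GX p k ω % (p : ℤ) ^ (M * k), GY p k ω % (p : ℤ) ^ (M * k))) (Gγ p k)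
      ≤ 4 * GE p z M A k (M * k) q := by
  obtain ⟨J, hJ0, hJ1, hJ2, hJ3, _⟩ := numbers (m := M * k) hp hq hk hA hG
  have hw : ∀ ω ∈ Gs p M A k (M * k), 0 ≤ Gw p z M A k (M * k) q ω := fun ω _ => Gw_nonneg' hp hG ω
  rw [CE_chain, CE_X_Yg hp le_rfl, CE_X_g hp le_rfl]
  have h1 : CE (Gs p M A k (M * k)) (Gw p z M A k (M * k) q)
        (fun ω => (GX p k ω + GY p k ω) % (p : ℤ) ^ (M * k)) (Gγ p k)
      ≤ CE (Gs p M A k (M * k)) (Gw p z M A k (M * k) q)
        (fun ω => (GX p k ω + GY p k ω) % (p : ℤ) ^ (M * k)) (fun _ => ()) :=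
    CE_mono_right hw _ (fun _ _ _ _ _ => rfl)
  have h2 : CE (Gs p M A k (M * k)) (Gw p z M A k (M * k) q) (fun ω => ω.1)
        (fun ω => (ω.2, ω.1 % p ^ k))
      ≤ CE (Gs p M A k (M * k)) (Gw p z M A k (M * k) q)
        (fun ω => GY p k ω % (p : ℤ) ^ (M * k)) (Gγ p k) := by
    have h3 : CE (Gs p M A k (M * k)) (Gw p z M A k (M * k) q)
        (fun ω => GY p k ω % (p : ℤ) ^ (M * k)) (Gγ p k)
        = CE (Gs p M A k (M * k)) (Gw p z M A k (M * k) q) (fun ω => ω.1) (Gγ p k) := by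
      refine CE_congr (fun a ha b hb => Iff.rfl) (fun a ha b hb h => ?_)
      simp only [Gγ, Prod.mk.injEq] at h
      exact inj_Y hp ha hb h.1 h.2
    rw [h3]
    refine CE_mono_right hw _ (fun a _ b _ h => ?_)
    simp only [Prod.mk.injEq] at h
    simp only [Gγ, Prod.mk.injEq]
    exact ⟨h.2, by rw [h.1]⟩
  have h4 : CE (Gs p M A k (M * k)) (Gw p z M A k (M * k) q) (fun ω => ω.2.sum) (fun ω => ω.1)
      ≤ CE (Gs p M A k (M * k)) (Gw p z M A k (M * k) q) (fun ω => ω.2.sum)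
        (fun ω => ω.1 % p ^ k) :=
    CE_mono_right hw _ (fun a _ b _ h => by rw [h])
  linarith

end Pool.Agent.Y966.NZ
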