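import Pool.Agent.H377R2.NK.Ent
import Pool.Agent.Y966.NZ.Basic2

/-!
U6a (LAW1): the ratios of the truncated martingale along windows of digits, for the Gibbs law.
-/

set_option autoImplicit false
set_option linter.unusedVariables false

namespace Pool.Agent.Y966.NZ

open Finset Pool.Agent.H320R2.PD Pool.Agent.H377R2.NK

namespace LawR

theorem odd_of {p : ℕ} (hp : p = 3 ∨ p = 5) : Odd p := by rcases hp with rfl | rfl <;> decide

theorem VS_sub_FW {p M A k : ℕ} {x : ℤ} : VS p M A k x ⊆ FW A k :=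
  (filter_subset _ _).trans (filter_subset _ _)

theorem mem_Gs {p M A k m : ℕ} {ω : ℕ × List ℕ} :
    ω ∈ Gs p M A k m ↔ ω.1 < p ^ (k + m) ∧ ω.2 ∈ VS p M A k (ω.1 : ℤ) := by
  classical
  unfold Gs
  rw [mem_filter, mem_product, mem_range]
  constructor
  · rintro ⟨⟨h1, h2⟩, h3⟩; exact ⟨h1, h3⟩
  · rintro ⟨h1, h2⟩; exact ⟨⟨h1, VS_sub_FW h2⟩, h2⟩

theorem sum_Gs {p M A k m : ℕ} (F : ℕ × List ℕ → ℝ) :
    ∑ ω ∈ Gs p M A k m, F ω
      = ∑ x ∈ range (p ^ (k + m)), ∑ u ∈ VS p M A k (x : ℤ), F (x, u) := by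
  classical
  unfold Gs
  rw [sum_filter, sum_product]
  refine sum_congr rfl fun x hx => ?_
  rw [← sum_filter]
  refine sum_congr ?_ fun _ _ => rfl
  ext u
  simp only [mem_filter]
  exact ⟨fun h => h.2, fun h => ⟨VS_sub_FW h, h⟩⟩

theorem mm_inj {Ω α : Type*} {s : Finset Ω} {w : Ω → ℝ} {f : Ω → α}
    (hf : ∀ ω ∈ s, ∀ ω' ∈ s, f ω' = f ω → ω' = ω) {ω : Ω} (h : ω ∈ s) :
    mm s w f ω = w ω := by
  classical
  unfold mm
  rw [sum_eq_single ω]
  · intro b hb hne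
    exact absurd (hf ω h b (mem_filter.1 hb).1 (mem_filter.1 hb).2) hne
  · intro h'
    exact absurd (mem_filter.2 (⟨h, rfl⟩ : ω ∈ s ∧ f ω = f ω)) h'

theorem mm_const {Ω α : Type*} {s : Finset Ω} {w : Ω → ℝ} (c : α) (ω : Ω) :
    mm s w (fun _ => c) ω = ∑ ω' ∈ s, w ω' := by
  classical
  unfold mm
  simp

section

variable {p q A k m l M : ℕ} {z : ℝ} [hz : Fact (ZC p z)]

theorem w_nonneg (hp : p = 3 ∨ p = 5) (hG : 0 < ZG p z M A k m q) (ω : ℕ × List ℕ) :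
    0 ≤ Gw p z M A k m q ω := by
  unfold Gw
  have hzw : 0 < zw p z ω.2 := zw_pos _
  have h1 : 0 ≤ GG p z M A k m (ω.1 : ℤ) := GG_nonneg _ _ _ _
  have h2 : 0 ≤ DD p z A m (en p ω.2 (ω.1 : ℤ)) := DD_nonneg _ _ _
  positivity

theorem sum_root (hq : 1 ≤ q) (x : ℕ) :
    ∑ u ∈ VS p M A k (x : ℤ), Gw p z M A k m q (x, u)
      = GG p z M A k m (x : ℤ) ^ q / ZG p z M A k m q := by
  unfold Gw
  simp only
  rw [← sum_div, ← mul_sum]
  congr 1
  have : ∑ u ∈ VS p M A k (x : ℤ), zw p z u * DD p z A m (en p u (x : ℤ))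
      = GG p z M A k m (x : ℤ) := rfl
  rw [this, ← pow_succ]
  congr 1
  omega

theorem w_total (hq : 1 ≤ q) (hG : 0 < ZG p z M A k m q) :
    ∑ ω ∈ Gs p M A k m, Gw p z M A k m q ω = 1 := by
  rw [sum_Gs]
  rw [sum_congr rfl fun x _ => sum_root (p := p) (A := A) (k := k) (m := m) hq x]
  rw [← sum_div]
  exact div_self hG.ne'

theorem mm_root (hq : 1 ≤ q) {ω : ℕ × List ℕ} (h : ω ∈ Gs p M A k m) :
    mm (Gs p M A k m) (Gw p z M A k m q) (fun ω => ω.1) ω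
      = GG p z M A k m (ω.1 : ℤ) ^ q / ZG p z M A k m q := by
  classical
  unfold mm
  rw [sum_filter, sum_Gs]
  rw [sum_eq_single ω.1]
  · simp only [if_true]
    exact sum_root hq ω.1
  · intro b _ hb
    refine sum_eq_zero fun u _ => ?_
    rw [if_neg hb]
  · intro h'
    exact absurd (mem_range.2 (mem_Gs.1 h).1) h'

theorem GG_pos_of (hq : 2 ≤ q) {ω : ℕ × List ℕ} (h : 0 < Gw p z M A k m q ω) :
    0 < GG p z M A k m (ω.1 : ℤ) := by
  rcases (GG_nonneg (p := p) (M := M) (z := z) A k m (ω.1 : ℤ)).lt_or_eq with h1 | h1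
  · exact h1
  · exfalso
    unfold Gw at h
    rw [← h1, zero_pow (by omega)] at h
    simp at h

theorem DD_pos_of {ω : ℕ × List ℕ} (h : 0 < Gw p z M A k m q ω) :
    0 < DD p z A m (en p ω.2 (ω.1 : ℤ)) := by
  rcases (DD_nonneg (p := p) (z := z) A m (en p ω.2 (ω.1 : ℤ))).lt_or_eq with h1 | h1
  · exact h1
  · exfalso
    unfold Gw at h
    rw [← h1] at h
    simp at h

theorem GG_add_le (hp : p = 3 ∨ p = 5) (i j : ℕ) (x : ℤ) :
    GG p z M A k (i + j) x ≤ (p : ℝ) ^ j * GG p z M A k i x := by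
  induction j with
  | zero => simp
  | succ j ih =>
    have h1 := GG_succ_le (M := M) (z := z) (odd_of hp) A k (i + j) x
    have h2 : (p : ℝ) * GG p z M A k (i + j) x ≤ p * ((p : ℝ) ^ j * GG p z M A k i x) :=
      mul_le_mul_of_nonneg_left ih (by positivity)
    calc GG p z M A k (i + (j + 1)) x = GG p z M A k (i + j + 1) x := by rw [Nat.add_assoc]
      _ ≤ p * GG p z M A k (i + j) x := h1
      _ ≤ p * ((p : ℝ) ^ j * GG p z M A k i x) := h2
      _ = (p : ℝ) ^ (j + 1) * GG p z M A k i x := by ring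

theorem GG_pos_down (hp : p = 3 ∨ p = 5) {i : ℕ} (hi : i ≤ m) {x : ℤ}
    (h : 0 < GG p z M A k m x) : 0 < GG p z M A k i x := by
  obtain ⟨j, rfl⟩ := Nat.exists_eq_add_of_le hi
  have h1 := GG_add_le (A := A) (k := k) (M := M) (z := z) hp i j x
  have h2 : 0 < (p : ℝ) ^ j * GG p z M A k i x := lt_of_lt_of_le h h1
  have h3 : (0 : ℝ) < (p : ℝ) ^ j := by
    have : 0 < p := by omega
    positivity
  exact (pos_iff_pos_of_mul_pos h2).1 h3

theorem log_w (hp : p = 3 ∨ p = 5) (hq : 2 ≤ q) (hG : 0 < ZG p z M A k m q) {ω : ℕ × List ℕ}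
    (h : 0 < Gw p z M A k m q ω) :
    Real.log (Gw p z M A k m q ω) = ((q : ℝ) - 1) * Real.log (GG p z M A k m (ω.1 : ℤ))
      + Real.log (zw p z ω.2) + Real.log (DD p z A m (en p ω.2 (ω.1 : ℤ)))
      - Real.log (ZG p z M A k m q) := by
  have h1 := GG_pos_of hq h
  have h2 := DD_pos_of h
  have hzw : 0 < zw p z ω.2 := zw_pos _
  unfold Gw
  rw [Real.log_div (by positivity) hG.ne', Real.log_mul (by positivity) (by positivity),
    Real.log_mul (by positivity) (by positivity), Real.log_pow,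
    Nat.cast_sub (by omega)]
  push_cast
  ring

/-! #### inverse of a power of two and recovery of the root -/

theorem inv_two (hp : p = 3 ∨ p = 5) (m : ℕ) :
    ((((p ^ m + 1) / 2 : ℕ) : ℤ)) * 2 = (p : ℤ) ^ m + 1 := by
  have h1 : Odd (p ^ m) := (odd_of hp).pow
  obtain ⟨t, ht⟩ := h1
  have h2 : (p ^ m + 1) / 2 = t + 1 := by omega
  rw [h2]
  have h3 : ((p ^ m : ℕ) : ℤ) = 2 * t + 1 := by rw [ht]; push_cast; ring
  push_cast at h3
  rw [h3]
  push_cast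
  ring

theorem inv_two_pow (hp : p = 3 ∨ p = 5) (m T : ℕ) :
    (p : ℤ) ^ m ∣ ((((p ^ m + 1) / 2 : ℕ) : ℤ)) ^ T * 2 ^ T - 1 := by
  rw [← mul_pow, inv_two hp]
  have h1 : (p : ℤ) ^ m + 1 - 1 ∣ ((p : ℤ) ^ m + 1) ^ T - 1 ^ T := sub_dvd_pow_sub_pow _ _ T
  simpa using h1

theorem root_split (x : ℕ) :
    (x : ℤ) = ((x % p ^ k : ℕ) : ℤ) + (p : ℤ) ^ k * ((x / p ^ k : ℕ) : ℤ) := by
  have := Nat.mod_add_div x (p ^ k)
  exact_mod_cast this.symm

theorem Gr_eq (hp : p = 3 ∨ p = 5) {i : ℕ} (hi : i ≤ m) (ω : ℕ × List ℕ) :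
    ∃ t : ℤ, Gr p k m (Gγ p k ω) (GY p k ω % (p : ℤ) ^ i) = (ω.1 : ℤ) + (p : ℤ) ^ (k + i) * t := by
  obtain ⟨a, ha⟩ := (pow_dvd_pow (p : ℤ) hi).trans (inv_two_pow hp m ω.2.sum)
  have h1 : GY p k ω % (p : ℤ) ^ i = GY p k ω - (p : ℤ) ^ i * (GY p k ω / (p : ℤ) ^ i) := by
    have := Int.emod_add_mul_ediv (GY p k ω) ((p : ℤ) ^ i)
    linarith
  refine ⟨a * ((ω.1 / p ^ k : ℕ) : ℤ)
    - (((p ^ m + 1) / 2 : ℕ) : ℤ) ^ ω.2.sum * (GY p k ω / (p : ℤ) ^ i), ?_⟩
  unfold Gr Gγ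
  simp only
  rw [h1]
  generalize GY p k ω / (p : ℤ) ^ i = Q
  have h2 := root_split (p := p) (k := k) ω.1
  unfold GY
  generalize ((ω.1 / p ^ k : ℕ) : ℤ) = h at *
  generalize ((ω.1 % p ^ k : ℕ) : ℤ) = b at *
  generalize (((p ^ m + 1) / 2 : ℕ) : ℤ) ^ ω.2.sum = I at *
  rw [h2, pow_add]
  have h3 : I * 2 ^ ω.2.sum = 1 + (p : ℤ) ^ i * a := by linarith
  calc b + (p : ℤ) ^ k * (I * (2 ^ ω.2.sum * h - (p : ℤ) ^ i * Q))
      = b + (p : ℤ) ^ k * ((I * 2 ^ ω.2.sum) * h - (p : ℤ) ^ i * (I * Q)) := by ring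
    _ = b + (p : ℤ) ^ k * h + (p : ℤ) ^ k * (p : ℤ) ^ i * (a * h - I * Q) := by
        rw [h3]; ring

theorem GR_eq (hp : p = 3 ∨ p = 5) {i : ℕ} (hi : i + l ≤ m) (ω : ℕ × List ℕ) :
    GR p z M A k m l i (Gγ p k ω) (GY p k ω % (p : ℤ) ^ (i + l))
      = GG p z M A k (i + l) (ω.1 : ℤ) / GG p z M A k i (ω.1 : ℤ) := by
  obtain ⟨t, ht⟩ := Gr_eq (k := k) hp hi ω
  unfold GR
  rw [ht, GG_shift (odd_of hp)]
  congr 1
  have : (p : ℤ) ^ (k + (i + l)) * t = (p : ℤ) ^ (k + i) * ((p : ℤ) ^ l * t) := by ring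
  rw [this, GG_shift (odd_of hp)]

theorem Gr_add (m i : ℕ) (g : ℕ × ℕ) (y v : ℤ) :
    Gr p k m g (y + (p : ℤ) ^ i * v)
      = Gr p k m g y + (p : ℤ) ^ (k + i) * ((((p ^ m + 1) / 2 : ℕ) : ℤ) ^ g.2 * v) := by
  unfold Gr
  rw [pow_add]
  ring

theorem inv_coprime (hp : p = 3 ∨ p = 5) {m : ℕ} (hm : 1 ≤ m) (T : ℕ) :
    IsCoprime ((((p ^ m + 1) / 2 : ℕ) : ℤ) ^ T) (p : ℤ) := by
  apply IsCoprime.pow_left
  refine ⟨2, -(p : ℤ) ^ (m - 1), ?_⟩
  have h1 := inv_two hp m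
  have h2 : (p : ℤ) ^ m = (p : ℤ) ^ (m - 1) * p := by
    rw [← pow_succ]; congr 1; omega
  rw [h2] at h1
  linarith

/-- sums of functions of `GG` along a window -/
theorem window_sum (hp : p = 3 ∨ p = 5) {m i : ℕ} (hi : i + l ≤ m) (g : ℕ × ℕ) (y : ℤ)
    (φ : ℝ → ℝ) :
    ∑ v ∈ range (p ^ l), φ (GG p z M A k (i + l) (Gr p k m g (y + (p : ℤ) ^ i * v)))
      = ∑ v ∈ range (p ^ l), φ (GG p z M A k (i + l) (Gr p k m g y + (p : ℤ) ^ (k + i) * (v : ℤ))) := by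
  rcases Nat.eq_zero_or_pos m with hm | hm
  · have : l = 0 := by omega
    subst this
    simp
  have h := sum_affine (p := p) (by omega) l ((((p ^ m + 1) / 2 : ℕ) : ℤ) ^ g.2) 0
    (inv_coprime hp hm g.2)
    (h := fun v => φ (GG p z M A k (i + l) (Gr p k m g y + (p : ℤ) ^ (k + i) * v))) (by
      intro a b
      have : Gr p k m g y + (p : ℤ) ^ (k + i) * (a + (p : ℤ) ^ l * b)
          = Gr p k m g y + (p : ℤ) ^ (k + i) * a + (p : ℤ) ^ (k + (i + l)) * b := by ring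
      show φ (GG p z M A k (i + l) (Gr p k m g y + (p : ℤ) ^ (k + i) * (a + (p : ℤ) ^ l * b)))
        = φ (GG p z M A k (i + l) (Gr p k m g y + (p : ℤ) ^ (k + i) * a))
      rw [this, GG_shift (odd_of hp)])
  rw [← h]
  refine sum_congr rfl fun v _ => ?_
  rw [Gr_add, zero_add]

theorem GR_add (hp : p = 3 ∨ p = 5) {m i : ℕ} (g : ℕ × ℕ) (y v : ℤ) :
    GR p z M A k m l i g (y + (p : ℤ) ^ i * v)
      = GG p z M A k (i + l) (Gr p k m g (y + (p : ℤ) ^ i * v)) / GG p z M A k i (Gr p k m g y) := by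
  unfold GR
  congr 1
  rw [Gr_add, GG_shift (odd_of hp)]

/-! #### telescoping -/

theorem telescope (g : ℕ → ℝ) {m r : ℕ} (hl : 1 ≤ l) (hr : r < l) (hrm : r ≤ m) :
    ∃ e : ℕ, m < e + l ∧ e ≤ m ∧
      ∑ i ∈ (range m).filter (fun i => i % l = r ∧ i + l ≤ m), (g (i + l) - g i) = g e - g r := by
  classical
  have key : (range m).filter (fun i => i % l = r ∧ i + l ≤ m)
      = (range ((m - r) / l)).image (fun j => r + l * j) := by
    ext i
    simp only [mem_filter, mem_range, mem_image]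
    constructor
    · rintro ⟨h1, h2, h3⟩
      refine ⟨i / l, ?_, ?_⟩
      · have h4 := Nat.mod_add_div i l
        rw [Nat.lt_iff_add_one_le, Nat.le_div_iff_mul_le (by omega)]
        have : (i / l + 1) * l = l * (i / l) + l := by ring
        rw [this]
        omega
      · have h4 := Nat.mod_add_div i l
        omega
    · rintro ⟨j, h1, rfl⟩
      rw [Nat.lt_iff_add_one_le, Nat.le_div_iff_mul_le (by omega)] at h1
      have h2 : (j + 1) * l = l * j + l := by ring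
      rw [h2] at h1
      refine ⟨by omega, ?_, by omega⟩
      rw [Nat.add_mul_mod_self_left, Nat.mod_eq_of_lt hr]
  refine ⟨r + l * ((m - r) / l), ?_, ?_, ?_⟩
  · have h1 := Nat.mod_add_div (m - r) l
    have h2 := Nat.mod_lt (m - r) (show 0 < l by omega)
    omega
  · have h1 := Nat.mul_div_le (m - r) l
    omega
  · rw [key, sum_image]
    · have h3 := Finset.sum_range_sub (fun j => g (r + l * j)) ((m - r) / l)
      simp only [Nat.mul_zero, Nat.add_zero] at h3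
      rw [← h3]
      refine sum_congr rfl fun j _ => ?_
      have : r + l * j + l = r + l * (j + 1) := by ring
      simp only [this]
    · intro a _ b _ hab
      simp only at hab
      have : l * a = l * b := by omega
      exact Nat.eq_of_mul_eq_mul_left (by omega) this

theorem logR_ge (hp : p = 3 ∨ p = 5) (hq : 2 ≤ q) (hl : 1 ≤ l) {r : ℕ} (hr : r < l)
    {ω : ℕ × List ℕ} (h : 0 < Gw p z M A k m q ω) :
    Real.log (GG p z M A k m (ω.1 : ℤ)) - Real.log (GG p z M A k 0 (ω.1 : ℤ)) - 2 * l * Real.log p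
      ≤ ∑ i ∈ (range m).filter (fun i => i % l = r ∧ i + l ≤ m),
        Real.log (GR p z M A k m l i (Gγ p k ω) (GY p k ω % (p : ℤ) ^ (i + l))) := by
  have hG := GG_pos_of hq h
  have hp1 : (1 : ℝ) < p := by
    have : 1 < p := by omega
    exact_mod_cast this
  have hlp : 0 < Real.log p := Real.log_pos hp1
  have hup : ∀ i j : ℕ, i + j ≤ m → Real.log (GG p z M A k (i + j) (ω.1 : ℤ))
      ≤ j * Real.log p + Real.log (GG p z M A k i (ω.1 : ℤ)) := by
    intro i j hij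
    have h1 := GG_add_le (A := A) (k := k) (M := M) (z := z) hp i j (ω.1 : ℤ)
    have h2 : 0 < GG p z M A k i (ω.1 : ℤ) := GG_pos_down hp (by omega) hG
    have h3 : 0 < GG p z M A k (i + j) (ω.1 : ℤ) := GG_pos_down hp hij hG
    have h4 := Real.log_le_log h3 h1
    rwa [Real.log_mul (by positivity) h2.ne', Real.log_pow] at h4
  rcases le_or_gt r m with hrm | hrm
  · obtain ⟨e, he1, he2, he3⟩ := telescope (fun i => Real.log (GG p z M A k i (ω.1 : ℤ))) hl hr hrm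
    have h1 : ∑ i ∈ (range m).filter (fun i => i % l = r ∧ i + l ≤ m),
        Real.log (GR p z M A k m l i (Gγ p k ω) (GY p k ω % (p : ℤ) ^ (i + l)))
        = Real.log (GG p z M A k e (ω.1 : ℤ)) - Real.log (GG p z M A k r (ω.1 : ℤ)) := by
      rw [← he3]
      refine sum_congr rfl fun i hi => ?_
      have hi' := (mem_filter.1 hi).2.2
      rw [GR_eq hp hi', Real.log_div]
      · exact (GG_pos_down hp hi' hG).ne'
      · exact (GG_pos_down hp (by omega) hG).ne'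
    rw [h1]
    obtain ⟨j, rfl⟩ := Nat.exists_eq_add_of_le he2
    have h2 := hup e j le_rfl
    have h3 := hup 0 r (by omega)
    rw [Nat.zero_add] at h3
    have hj : (j : ℝ) ≤ l := by
      have : j ≤ l := by omega
      exact_mod_cast this
    have hr' : (r : ℝ) ≤ l := by exact_mod_cast hr.le
    have h4 : (j : ℝ) * Real.log p ≤ l * Real.log p := mul_le_mul_of_nonneg_right hj hlp.le
    have h5 : (r : ℝ) * Real.log p ≤ l * Real.log p := mul_le_mul_of_nonneg_right hr' hlp.le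
    linarith
  · have h1 : (range m).filter (fun i => i % l = r ∧ i + l ≤ m) = ∅ := by
      rw [filter_eq_empty_iff]
      intro i hi
      rw [mem_range] at hi
      rintro ⟨_, h2⟩
      omega
    rw [h1, sum_empty]
    have h2 := hup 0 m (by omega)
    rw [Nat.zero_add] at h2
    have hj : (m : ℝ) ≤ l := by
      have : m ≤ l := by omega
      exact_mod_cast this
    have h4 : (m : ℝ) * Real.log p ≤ l * Real.log p := mul_le_mul_of_nonneg_right hj hlp.le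
    have h5 : 0 ≤ (l : ℝ) * Real.log p := by positivity
    linarith

/-! #### `GG 0` -/

theorem GG0_eq (x : ℤ) : GG p z M A k 0 x = ∑ u ∈ VS p M A k x, zw p z u := by
  unfold GG
  refine sum_congr rfl fun u _ => ?_
  rw [DD_zero, mul_one]

theorem GG0_mod (hp : p = 3 ∨ p = 5) (x : ℕ) :
    GG p z M A k 0 (x : ℤ) = GG p z M A k 0 ((x % p ^ k : ℕ) : ℤ) := by
  rw [root_split (p := p) (k := k) x]
  have := GG_shift (M := M) (z := z) (odd_of hp) A k 0 ((x % p ^ k : ℕ) : ℤ) ((x / p ^ k : ℕ) : ℤ)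
  rw [Nat.add_zero] at this
  exact this

theorem sum_GG0_pow (hp : p = 3 ∨ p = 5) :
    ∑ a ∈ range (p ^ k), GG p z M A k 0 (a : ℤ) ^ q ≤ Zq p z A k q := by
  unfold Zq
  refine sum_le_sum fun a _ => ?_
  have := GG_le (M := M) (z := z) (odd_of hp) A k 0 (a : ℤ)
  rw [Nat.add_zero] at this
  exact pow_le_pow_left₀ (GG_nonneg _ _ _ _) this q

/-! #### the entropy of the root given its low digits -/

theorem esum_congr {s : Finset (ℕ × List ℕ)} {w : ℕ × List ℕ → ℝ} (hw : ∀ ω ∈ s, 0 ≤ w ω)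
    {f g : ℕ × List ℕ → ℝ} (h : ∀ ω ∈ s, 0 < w ω → f ω = g ω) :
    ∑ ω ∈ s, w ω * f ω = ∑ ω ∈ s, w ω * g ω := by
  refine sum_congr rfl fun ω hω => ?_
  rcases (hw ω hω).lt_or_eq with h1 | h1
  · rw [h ω hω h1]
  · rw [← h1]; simp

theorem esum_le {s : Finset (ℕ × List ℕ)} {w : ℕ × List ℕ → ℝ} (hw : ∀ ω ∈ s, 0 ≤ w ω)
    {f g : ℕ × List ℕ → ℝ} (h : ∀ ω ∈ s, 0 < w ω → f ω ≤ g ω) :
    ∑ ω ∈ s, w ω * f ω ≤ ∑ ω ∈ s, w ω * g ω := by
  refine sum_le_sum fun ω hω => ?_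
  rcases (hw ω hω).lt_or_eq with h1 | h1
  · exact mul_le_mul_of_nonneg_left (h ω hω h1) h1.le
  · rw [← h1]; simp

theorem gibbs_root (hp : p = 3 ∨ p = 5) (hq : 2 ≤ q) (hG : 0 < ZG p z M A k m q) :
    Real.log (ZG p z M A k m q) - Real.log (Zq p z A k q)
      ≤ CE (Gs p M A k m) (Gw p z M A k m q) (fun ω => ω.1) (fun ω => ω.1 % p ^ k)
        + q * ∑ ω ∈ Gs p M A k m, Gw p z M A k m q ω *
          (Real.log (GG p z M A k m (ω.1 : ℤ)) - Real.log (GG p z M A k 0 (ω.1 : ℤ))) := by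
  classical
  set s := Gs p M A k m with hs
  set w := Gw p z M A k m q with hwd
  have hw : ∀ ω ∈ s, 0 ≤ w ω := fun ω _ => w_nonneg hp hG ω
  have htot : ∑ ω ∈ s, w ω = 1 := w_total (by omega) hG
  have hpk : 0 < p ^ k := by
    have : 0 < p := by omega
    positivity
  -- CE (x | a)
  have h1 : CE s w (fun ω => ω.1) (fun ω => ω.1 % p ^ k)
      = ∑ ω ∈ s, w ω * (Real.log (mm s w (fun ω => ω.1 % p ^ k) ω)
          - (q * Real.log (GG p z M A k m (ω.1 : ℤ)) - Real.log (ZG p z M A k m q))) := by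
    unfold CE
    refine esum_congr hw fun ω hω hpos => ?_
    have h2 : mm s w (fun ω => (ω.1, ω.1 % p ^ k)) ω = mm s w (fun ω => ω.1) ω :=
      mm_congr (fun a _ b _ => by
        constructor
        · intro h; exact (Prod.ext_iff.1 h).1
        · intro h; simp only [h]) ω hω
    rw [h2, hs, hwd, mm_root (by omega) hω, Real.log_div (by
      have := GG_pos_of hq hpos
      positivity) hG.ne', Real.log_pow]
  -- H(a)
  have h3 : CE s w (fun ω => ω.1 % p ^ k) (fun _ => ())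
      = ∑ ω ∈ s, w ω * (- Real.log (mm s w (fun ω => ω.1 % p ^ k) ω)) := by
    unfold CE
    refine esum_congr hw fun ω hω hpos => ?_
    have h2 : mm s w (fun ω => (ω.1 % p ^ k, ())) ω = mm s w (fun ω => ω.1 % p ^ k) ω :=
      mm_congr (fun a _ b _ => by
        constructor
        · intro h; exact (Prod.ext_iff.1 h).1
        · intro h; simp only [h]) ω hω
    rw [h2, mm_const, htot, Real.log_one, zero_sub]
  have h4 := CE_gibbs hw (fun ω => ω.1 % p ^ k) (fun _ => ()) (fun _ => range (p ^ k))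
    (fun a _ => GG p z M A k 0 (a : ℤ) ^ q) (fun _ => Zq p z A k q)
    (fun ω _ _ => mem_range.2 (Nat.mod_lt _ hpk))
    (fun ω _ _ a _ => pow_nonneg (GG_nonneg _ _ _ _) _)
    (fun ω hω hpos => by
      have h5 := GG_pos_down hp (Nat.zero_le m) (GG_pos_of hq hpos)
      rw [GG0_mod hp] at h5
      positivity)
    (fun ω _ _ => sum_GG0_pow hp)
  rw [h3] at h4
  have h5 : ∑ ω ∈ s, w ω * Real.log (GG p z M A k 0 ((ω.1 % p ^ k : ℕ) : ℤ) ^ q)
      = ∑ ω ∈ s, w ω * (q * Real.log (GG p z M A k 0 (ω.1 : ℤ))) := by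
    refine sum_congr rfl fun ω _ => ?_
    rw [Real.log_pow, ← GG0_mod hp]
  have h6 : ∑ ω ∈ s, w ω * Real.log (Zq p z A k q) = Real.log (Zq p z A k q) := by
    rw [← sum_mul, htot, one_mul]
  have h7 : ∑ ω ∈ s, w ω * Real.log (ZG p z M A k m q) = Real.log (ZG p z M A k m q) := by
    rw [← sum_mul, htot, one_mul]
  rw [h5, h6] at h4
  rw [h1, mul_sum, ← sum_add_distrib]
  have h8 : ∑ ω ∈ s, (w ω * (Real.log (mm s w (fun ω => ω.1 % p ^ k) ω)
          - (q * Real.log (GG p z M A k m (ω.1 : ℤ)) - Real.log (ZG p z M A k m q)))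
        + q * (w ω * (Real.log (GG p z M A k m (ω.1 : ℤ)) - Real.log (GG p z M A k 0 (ω.1 : ℤ)))))
      = ∑ ω ∈ s, w ω * Real.log (ZG p z M A k m q)
        - (∑ ω ∈ s, w ω * (- Real.log (mm s w (fun ω => ω.1 % p ^ k) ω))
          + ∑ ω ∈ s, w ω * (q * Real.log (GG p z M A k 0 (ω.1 : ℤ)))) := by
    rw [← sum_add_distrib, ← sum_sub_distrib]
    refine sum_congr rfl fun ω _ => ?_
    ring
  rw [h8, h7]
  linarith

/-! #### the entropy of the word: the inequalities (F0), (F1) -/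

theorem sum_range_split (F : ℕ → ℝ) (hp : 1 ≤ p) :
    ∑ x ∈ range (p ^ (k + m)), F x
      = ∑ a ∈ range (p ^ k), ∑ h ∈ range (p ^ m), F (a + p ^ k * h) := by
  have hpk : 0 < p ^ k := by positivity
  rw [← sum_product']
  refine sum_nbij' (fun x => (x % p ^ k, x / p ^ k)) (fun y => y.1 + p ^ k * y.2) ?_ ?_ ?_ ?_ ?_
  · intro x hx
    rw [mem_range, pow_add] at hx
    rw [mem_product, mem_range, mem_range]
    exact ⟨Nat.mod_lt _ hpk, Nat.div_lt_of_lt_mul hx⟩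
  · intro y hy
    rw [mem_product, mem_range, mem_range] at hy
    rw [mem_range, pow_add]
    calc y.1 + p ^ k * y.2 < p ^ k + p ^ k * y.2 := by omega
      _ = p ^ k * (y.2 + 1) := by ring
      _ ≤ p ^ k * p ^ m := Nat.mul_le_mul_left _ hy.2
  · intro x _
    exact Nat.mod_add_div x _
  · intro y hy
    rw [mem_product, mem_range, mem_range] at hy
    have h1 : (y.1 + p ^ k * y.2) % p ^ k = y.1 := by
      rw [Nat.add_mul_mod_self_left, Nat.mod_eq_of_lt hy.1]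
    have h2 : (y.1 + p ^ k * y.2) / p ^ k = y.2 := by
      rw [Nat.add_mul_div_left _ _ hpk, Nat.div_eq_of_lt hy.1, Nat.zero_add]
    simp only [h1, h2]
  · intro x _
    simp only [Nat.mod_add_div]

theorem VS_length {x : ℤ} {u : List ℕ} (hu : u ∈ VS p M A k x) : u.length = k :=
  (mem_VW.1 (mem_filter.1 hu).1).1

theorem coprime_two_pow (hp : p = 3 ∨ p = 5) (T : ℕ) : IsCoprime ((2 : ℤ) ^ T) (p : ℤ) := by
  apply IsCoprime.pow_left
  rcases hp with rfl | rfl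
  · exact ⟨-1, 1, by norm_num⟩
  · exact ⟨-2, 1, by norm_num⟩

theorem sum_F (hp : p = 3 ∨ p = 5) (hq : 2 ≤ q) :
    ∑ ω ∈ Gs p M A k m, GG p z M A k 0 (ω.1 : ℤ) ^ (q - 1)
        * (zw p z ω.2 * DD p z A m (en p ω.2 (ω.1 : ℤ)) ^ q)
      ≤ Zq p z A k q * Zq p z A m q := by
  rw [sum_Gs, sum_range_split _ (by omega)]
  have hZ : 0 ≤ Zq p z A m q := sum_nonneg fun x _ => pow_nonneg (DD_nonneg _ _ _) _
  have h1 : ∀ a ∈ range (p ^ k), ∑ h ∈ range (p ^ m),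
      ∑ u ∈ VS p M A k ((a + p ^ k * h : ℕ) : ℤ),
        GG p z M A k 0 ((a + p ^ k * h : ℕ) : ℤ) ^ (q - 1)
        * (zw p z u * DD p z A m (en p u ((a + p ^ k * h : ℕ) : ℤ)) ^ q)
      = GG p z M A k 0 (a : ℤ) ^ q * Zq p z A m q := by
    intro a _
    have h2 : ∀ h : ℕ, ((a + p ^ k * h : ℕ) : ℤ) = (a : ℤ) + (p : ℤ) ^ k * (h : ℤ) := by
      intro h; push_cast; ring
    have h3 : ∀ h : ℤ, VS p M A k ((a : ℤ) + (p : ℤ) ^ k * h) = VS p M A k (a : ℤ) :=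
      fun h => VS_shift _ _ _ _
    have h4 : ∀ h : ℤ, GG p z M A k 0 ((a : ℤ) + (p : ℤ) ^ k * h) = GG p z M A k 0 (a : ℤ) := by
      intro h
      have := GG_shift (M := M) (z := z) (odd_of hp) A k 0 (a : ℤ) h
      rwa [Nat.add_zero] at this
    simp only [h2, h3, h4]
    rw [sum_comm]
    have h5 : ∀ u ∈ VS p M A k (a : ℤ), ∑ h ∈ range (p ^ m), GG p z M A k 0 (a : ℤ) ^ (q - 1)
        * (zw p z u * DD p z A m (en p u ((a : ℤ) + (p : ℤ) ^ k * (h : ℤ))) ^ q)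
        = GG p z M A k 0 (a : ℤ) ^ (q - 1) * (zw p z u * Zq p z A m q) := by
      intro u hu
      rw [← mul_sum, ← mul_sum]
      congr 2
      have hlen := VS_length hu
      have h6 : ∀ h : ℤ, en p u ((a : ℤ) + (p : ℤ) ^ k * h) = en p u (a : ℤ) + 2 ^ u.sum * h := by
        intro h
        have := en_shift (p := p) (by omega) (w := u) (a : ℤ) h
        rwa [hlen] at this
      simp only [h6]
      exact sum_affine (p := p) (by omega) m (2 ^ u.sum) (en p u (a : ℤ))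
        (coprime_two_pow hp _) (h := fun y => DD p z A m y ^ q)
        (fun x y => by simp only [DD_shift])
    rw [sum_congr rfl h5, ← mul_sum, ← sum_mul, ← GG0_eq, ← mul_assoc, ← pow_succ]
    congr 2
    omega
  rw [sum_congr rfl h1, ← sum_mul]
  exact mul_le_mul_of_nonneg_right (sum_GG0_pow hp) hZ

/-- the defect of the word law -/
noncomputable def JJ (p : ℕ) (z : ℝ) (M A k m q : ℕ) : ℝ :=
  ∑ ω ∈ Gs p M A k m, Gw p z M A k m q ω * (Real.log (DD p z A m (en p ω.2 (ω.1 : ℤ)))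
    + Real.log (GG p z M A k 0 (ω.1 : ℤ)) - Real.log (GG p z M A k m (ω.1 : ℤ)))

/-- the entropy of the word given the root -/
theorem CE_word_root (hp : p = 3 ∨ p = 5) (hq : 2 ≤ q) (hG : 0 < ZG p z M A k m q) :
    CE (Gs p M A k m) (Gw p z M A k m q) (fun ω => ω.2) (fun ω => (ω.1, ω.1 % p ^ k))
      = ∑ ω ∈ Gs p M A k m, Gw p z M A k m q ω * (Real.log (GG p z M A k m (ω.1 : ℤ))
        - Real.log (zw p z ω.2) - Real.log (DD p z A m (en p ω.2 (ω.1 : ℤ)))) := by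
  classical
  have hw : ∀ ω ∈ Gs p M A k m, 0 ≤ Gw p z M A k m q ω := fun ω _ => w_nonneg hp hG ω
  unfold CE
  refine esum_congr hw fun ω hω hpos => ?_
  have h2 : mm (Gs p M A k m) (Gw p z M A k m q) (fun ω => (ω.1, ω.1 % p ^ k)) ω
      = mm (Gs p M A k m) (Gw p z M A k m q) (fun ω => ω.1) ω :=
    mm_congr (fun a _ b _ => by
      constructor
      · intro h; exact (Prod.ext_iff.1 h).1
      · intro h; simp only [h]) ω hω
  have h3 : mm (Gs p M A k m) (Gw p z M A k m q) (fun ω => (ω.2, (ω.1, ω.1 % p ^ k))) ω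
      = Gw p z M A k m q ω :=
    mm_inj (fun a _ b _ h => by
      have h4 := Prod.ext_iff.1 h
      have h5 := Prod.ext_iff.1 h4.2
      exact Prod.ext h5.1 h4.1) hω
  have h4 := GG_pos_of hq hpos
  rw [h2, h3, mm_root (by omega) hω, log_w hp hq hG hpos, Real.log_div (by positivity) hG.ne',
    Real.log_pow]
  ring

/-- (Gibbs) the entropy of the word given the low digits of the root -/
theorem gibbs_word (hp : p = 3 ∨ p = 5) (hq : 2 ≤ q) (hG : 0 < ZG p z M A k m q) :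
    CE (Gs p M A k m) (Gw p z M A k m q) (fun ω => ω.2) (fun ω => ω.1 % p ^ k)
      + ∑ ω ∈ Gs p M A k m, Gw p z M A k m q ω * Real.log (zw p z ω.2)
      ≤ ∑ ω ∈ Gs p M A k m, Gw p z M A k m q ω * Real.log (GG p z M A k 0 (ω.1 : ℤ)) := by
  classical
  have hw : ∀ ω ∈ Gs p M A k m, 0 ≤ Gw p z M A k m q ω := fun ω _ => w_nonneg hp hG ω
  have h4 := CE_gibbs hw (fun ω => ω.2) (fun ω => ω.1 % p ^ k)
    (fun b => VS p M A k (b : ℤ)) (fun u _ => zw p z u) (fun b => GG p z M A k 0 (b : ℤ))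
    (fun ω hω _ => by
      have h5 := (mem_Gs.1 hω).2
      rw [root_split (p := p) (k := k) ω.1, VS_shift] at h5
      exact h5)
    (fun ω _ _ a _ => zw_nonneg _)
    (fun ω hω hpos => zw_pos _)
    (fun ω _ _ => (GG0_eq _).symm.le)
  have h6 : ∑ ω ∈ Gs p M A k m, Gw p z M A k m q ω * Real.log (GG p z M A k 0 ((ω.1 % p ^ k : ℕ) : ℤ))
      = ∑ ω ∈ Gs p M A k m, Gw p z M A k m q ω * Real.log (GG p z M A k 0 (ω.1 : ℤ)) := by
    refine sum_congr rfl fun ω _ => ?_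
    rw [← GG0_mod hp]
  rw [h6] at h4
  exact h4

/-- (F1), first half -/
theorem word_le_J (hp : p = 3 ∨ p = 5) (hq : 2 ≤ q) (hG : 0 < ZG p z M A k m q) :
    CE (Gs p M A k m) (Gw p z M A k m q) (fun ω => ω.2) (fun ω => ω.1 % p ^ k)
      - CE (Gs p M A k m) (Gw p z M A k m q) (fun ω => ω.2) (fun ω => (ω.1, ω.1 % p ^ k))
      ≤ JJ p z M A k m q := by
  have h1 := CE_word_root hp hq hG
  have h2 := gibbs_word hp hq hG
  have h3 : JJ p z M A k m q
      = ∑ ω ∈ Gs p M A k m, Gw p z M A k m q ω * Real.log (GG p z M A k 0 (ω.1 : ℤ))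
        - ∑ ω ∈ Gs p M A k m, Gw p z M A k m q ω * Real.log (zw p z ω.2)
        - ∑ ω ∈ Gs p M A k m, Gw p z M A k m q ω * (Real.log (GG p z M A k m (ω.1 : ℤ))
        - Real.log (zw p z ω.2) - Real.log (DD p z A m (en p ω.2 (ω.1 : ℤ)))) := by
    unfold JJ
    rw [← sum_sub_distrib, ← sum_sub_distrib]
    refine sum_congr rfl fun ω _ => ?_
    ring
  rw [h1, h3]
  linarith

theorem J_nonneg (hp : p = 3 ∨ p = 5) (hq : 2 ≤ q) (hG : 0 < ZG p z M A k m q) :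
    0 ≤ JJ p z M A k m q := by
  have hw : ∀ ω ∈ Gs p M A k m, 0 ≤ Gw p z M A k m q ω := fun ω _ => w_nonneg hp hG ω
  have h1 := word_le_J hp hq hG
  have h2 : CE (Gs p M A k m) (Gw p z M A k m q) (fun ω => ω.2) (fun ω => (ω.1, ω.1 % p ^ k))
      ≤ CE (Gs p M A k m) (Gw p z M A k m q) (fun ω => ω.2) (fun ω => ω.1 % p ^ k) :=
    CE_mono_right hw _ fun a _ b _ h => (Prod.ext_iff.1 h).2
  linarith

/-- the entropy of the whole point -/
theorem CE_point (hp : p = 3 ∨ p = 5) (hq : 2 ≤ q) (hG : 0 < ZG p z M A k m q) :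
    CE (Gs p M A k m) (Gw p z M A k m q) (fun ω => ω) (fun _ => ())
      = ∑ ω ∈ Gs p M A k m, Gw p z M A k m q ω * (Real.log (ZG p z M A k m q)
        - ((q : ℝ) - 1) * Real.log (GG p z M A k m (ω.1 : ℤ))
        - Real.log (zw p z ω.2) - Real.log (DD p z A m (en p ω.2 (ω.1 : ℤ)))) := by
  classical
  have hw : ∀ ω ∈ Gs p M A k m, 0 ≤ Gw p z M A k m q ω := fun ω _ => w_nonneg hp hG ω
  unfold CE
  refine esum_congr hw fun ω hω hpos => ?_
  have h3 : mm (Gs p M A k m) (Gw p z M A k m q) (fun ω => (ω, ())) ω = Gw p z M A k m q ω :=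
    mm_inj (fun a _ b _ h => (Prod.ext_iff.1 h).1) hω
  rw [h3, mm_const, w_total (by omega) hG, Real.log_one, log_w hp hq hG hpos]
  ring

/-- (F0) -/
theorem J_le (hp : p = 3 ∨ p = 5) (hq : 2 ≤ q) (hG : 0 < ZG p z M A k m q)
    (hk : 0 < Zq p z A k q) (hm : 0 < Zq p z A m q) :
    ((q : ℝ) - 1) * JJ p z M A k m q ≤ GE p z M A k m q := by
  classical
  have hw : ∀ ω ∈ Gs p M A k m, 0 ≤ Gw p z M A k m q ω := fun ω _ => w_nonneg hp hG ω
  have h4 := CE_gibbs hw (fun ω => ω) (fun _ => ()) (fun _ => Gs p M A k m)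
    (fun ω _ => GG p z M A k 0 (ω.1 : ℤ) ^ (q - 1)
        * (zw p z ω.2 * DD p z A m (en p ω.2 (ω.1 : ℤ)) ^ q))
    (fun _ => Zq p z A k q * Zq p z A m q)
    (fun ω hω _ => hω)
    (fun ω _ _ a _ => by
      have h1 : 0 ≤ GG p z M A k 0 (a.1 : ℤ) := GG_nonneg _ _ _ _
      have h2 : 0 ≤ DD p z A m (en p a.2 (a.1 : ℤ)) := DD_nonneg _ _ _
      have h3 : 0 < zw p z a.2 := zw_pos _
      positivity)
    (fun ω hω hpos => by
      have h1 := GG_pos_down hp (Nat.zero_le m) (GG_pos_of hq hpos)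
      have h2 := DD_pos_of hpos
      have h3 : 0 < zw p z ω.2 := zw_pos _
      positivity)
    (fun ω _ _ => sum_F hp hq)
  rw [CE_point hp hq hG] at h4
  have h5 : ∑ ω ∈ Gs p M A k m, Gw p z M A k m q ω * Real.log (GG p z M A k 0 (ω.1 : ℤ) ^ (q - 1)
        * (zw p z ω.2 * DD p z A m (en p ω.2 (ω.1 : ℤ)) ^ q))
      = ∑ ω ∈ Gs p M A k m, Gw p z M A k m q ω * (((q : ℝ) - 1) * Real.log (GG p z M A k 0 (ω.1 : ℤ))
        + Real.log (zw p z ω.2) + q * Real.log (DD p z A m (en p ω.2 (ω.1 : ℤ)))) := by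
    refine esum_congr hw fun ω hω hpos => ?_
    have h1 := GG_pos_down hp (Nat.zero_le m) (GG_pos_of hq hpos)
    have h2 := DD_pos_of hpos
    have h3 : 0 < zw p z ω.2 := zw_pos _
    rw [Real.log_mul (by positivity) (by positivity), Real.log_mul (by positivity) (by positivity),
      Real.log_pow, Real.log_pow, Nat.cast_sub (by omega)]
    push_cast
    ring
  have h6 : ∑ ω ∈ Gs p M A k m, Gw p z M A k m q ω * Real.log (Zq p z A k q * Zq p z A m q)
      = Real.log (Zq p z A k q) + Real.log (Zq p z A m q) := by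
    rw [← sum_mul, w_total (by omega) hG, one_mul, Real.log_mul hk.ne' hm.ne']
  have h7 : ∑ ω ∈ Gs p M A k m, Gw p z M A k m q ω * Real.log (ZG p z M A k m q)
      = Real.log (ZG p z M A k m q) := by
    rw [← sum_mul, w_total (by omega) hG, one_mul]
  rw [h5, h6, ← sum_add_distrib] at h4
  have h8 : ((q : ℝ) - 1) * JJ p z M A k m q + Real.log (ZG p z M A k m q)
      = ∑ ω ∈ Gs p M A k m, (Gw p z M A k m q ω * (Real.log (ZG p z M A k m q)
        - ((q : ℝ) - 1) * Real.log (GG p z M A k m (ω.1 : ℤ))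
        - Real.log (zw p z ω.2) - Real.log (DD p z A m (en p ω.2 (ω.1 : ℤ))))
        + Gw p z M A k m q ω * (((q : ℝ) - 1) * Real.log (GG p z M A k 0 (ω.1 : ℤ))
        + Real.log (zw p z ω.2) + q * Real.log (DD p z A m (en p ω.2 (ω.1 : ℤ))))) := by
    conv_lhs => rw [← h7]
    unfold JJ
    rw [mul_sum, ← sum_add_distrib]
    refine sum_congr rfl fun ω _ => ?_
    ring
  unfold GE
  linarith

/-- (F0'), `0 ≤ J ≤ GE` -/
theorem J_le_GE (hp : p = 3 ∨ p = 5) (hq : 2 ≤ q) (hG : 0 < ZG p z M A k m q)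
    (hk : 0 < Zq p z A k q) (hm : 0 < Zq p z A m q) : JJ p z M A k m q ≤ GE p z M A k m q := by
  have h1 := J_nonneg hp hq hG
  have h2 := J_le hp hq hG hk hm
  have h3 : (2 : ℝ) ≤ q := by exact_mod_cast hq
  nlinarith

/-- (F1) -/
theorem word_indep (hp : p = 3 ∨ p = 5) (hq : 2 ≤ q) (hG : 0 < ZG p z M A k m q)
    (hk : 0 < Zq p z A k q) (hm : 0 < Zq p z A m q) :
    CE (Gs p M A k m) (Gw p z M A k m q) (fun ω => ω.2) (fun ω => ω.1 % p ^ k)
      - CE (Gs p M A k m) (Gw p z M A k m q) (fun ω => ω.2) (fun ω => (ω.1, ω.1 % p ^ k))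
      ≤ GE p z M A k m q :=
  (word_le_J hp hq hG).trans (J_le_GE hp hq hG hk hm)

theorem CE_root_word (hp : p = 3 ∨ p = 5) (hq : 2 ≤ q) (hG : 0 < ZG p z M A k m q)
    (hk : 0 < Zq p z A k q) (hm : 0 < Zq p z A m q) :
    CE (Gs p M A k m) (Gw p z M A k m q) (fun ω => ω.1) (fun ω => ω.1 % p ^ k) - GE p z M A k m q
      ≤ CE (Gs p M A k m) (Gw p z M A k m q) (fun ω => ω.1) (fun ω => (ω.2, ω.1 % p ^ k)) := by
  have h1 := CE_chain (s := Gs p M A k m) (w := Gw p z M A k m q) (fun ω => ω.1) (fun ω => ω.2)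
    (fun ω => ω.1 % p ^ k)
  have h2 := CE_chain (s := Gs p M A k m) (w := Gw p z M A k m q) (fun ω => ω.2) (fun ω => ω.1)
    (fun ω => ω.1 % p ^ k)
  have h3 : CE (Gs p M A k m) (Gw p z M A k m q) (fun ω => (ω.1, ω.2)) (fun ω => ω.1 % p ^ k)
      = CE (Gs p M A k m) (Gw p z M A k m q) (fun ω => (ω.2, ω.1)) (fun ω => ω.1 % p ^ k) :=
    CE_congr (fun _ _ _ _ => Iff.rfl) (fun a _ b _ _ => by
      simp only [Prod.mk.injEq]; exact and_comm)
  have h4 := word_indep hp hq hG hk hm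
  linarith

/-- given the low digits and the size, `Y` is equivalent to the root -/
theorem GY_iff (hp : p = 3 ∨ p = 5) {ω ω' : ℕ × List ℕ} (h : ω ∈ Gs p M A k m)
    (h' : ω' ∈ Gs p M A k m) (hγ : Gγ p k ω = Gγ p k ω') :
    GY p k ω % (p : ℤ) ^ m = GY p k ω' % (p : ℤ) ^ m ↔ ω.1 = ω'.1 := by
  unfold Gγ at hγ
  have h1 := Prod.ext_iff.1 hγ
  simp only at h1
  obtain ⟨h1, h2⟩ := h1
  unfold GY
  rw [← h2]
  have hlt : ∀ {ω : ℕ × List ℕ}, ω ∈ Gs p M A k m → ω.1 / p ^ k < p ^ m := by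
    intro ω hω
    have := (mem_Gs.1 hω).1
    rw [pow_add] at this
    exact Nat.div_lt_of_lt_mul this
  constructor
  · intro h3
    have h4 : (p : ℤ) ^ m ∣ 2 ^ ω.2.sum * (((ω.1 / p ^ k : ℕ) : ℤ) - ((ω'.1 / p ^ k : ℕ) : ℤ)) := by
      rw [mul_sub]
      exact Int.ModEq.dvd (Eq.symm h3 : _ % _ = _ % _)
    have h5 : (p : ℤ) ^ m ∣ (((ω.1 / p ^ k : ℕ) : ℤ) - ((ω'.1 / p ^ k : ℕ) : ℤ)) := by
      have h6 : IsCoprime ((p : ℤ) ^ m) (2 ^ ω.2.sum) := (coprime_two_pow hp _).symm.pow_left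
      exact h6.dvd_of_dvd_mul_left h4
    have h6 : ω.1 / p ^ k = ω'.1 / p ^ k := by
      have h7 := hlt h
      have h8 := hlt h'
      have h9 := Int.eq_zero_of_abs_lt_dvd h5 (by
        have h7' : ((ω.1 / p ^ k : ℕ) : ℤ) < (p : ℤ) ^ m := by exact_mod_cast h7
        have h8' : ((ω'.1 / p ^ k : ℕ) : ℤ) < (p : ℤ) ^ m := by exact_mod_cast h8
        have h7'' : (0 : ℤ) ≤ ((ω.1 / p ^ k : ℕ) : ℤ) := Int.natCast_nonneg _
        have h8'' : (0 : ℤ) ≤ ((ω'.1 / p ^ k : ℕ) : ℤ) := Int.natCast_nonneg _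
        rw [abs_lt]
        constructor <;> linarith)
      have : ((ω.1 / p ^ k : ℕ) : ℤ) = ((ω'.1 / p ^ k : ℕ) : ℤ) := by linarith
      exact_mod_cast this
    rw [← Nat.mod_add_div ω.1 (p ^ k), ← Nat.mod_add_div ω'.1 (p ^ k), h1, h6]
  · intro h3
    rw [h3]

theorem CE_GY (hp : p = 3 ∨ p = 5) :
    CE (Gs p M A k m) (Gw p z M A k m q) (fun ω => GY p k ω % (p : ℤ) ^ m) (Gγ p k)
      = CE (Gs p M A k m) (Gw p z M A k m q) (fun ω => ω.1) (Gγ p k) :=
  CE_congr (fun _ _ _ _ => Iff.rfl) (fun a ha b hb hab => GY_iff hp ha hb hab)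

/-- `CE(Y | γ) ≥ CE(x | a) - GE` -/
theorem CE_GY_ge (hp : p = 3 ∨ p = 5) (hq : 2 ≤ q) (hG : 0 < ZG p z M A k m q)
    (hk : 0 < Zq p z A k q) (hm : 0 < Zq p z A m q) :
    CE (Gs p M A k m) (Gw p z M A k m q) (fun ω => ω.1) (fun ω => ω.1 % p ^ k) - GE p z M A k m q
      ≤ CE (Gs p M A k m) (Gw p z M A k m q) (fun ω => GY p k ω % (p : ℤ) ^ m) (Gγ p k) := by
  have hw : ∀ ω ∈ Gs p M A k m, 0 ≤ Gw p z M A k m q ω := fun ω _ => w_nonneg hp hG ω
  rw [CE_GY hp]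
  refine (CE_root_word hp hq hG hk hm).trans ?_
  refine CE_mono_right hw _ fun a _ b _ h => ?_
  have h1 := Prod.ext_iff.1 h
  simp only at h1
  unfold Gγ
  rw [h1.1, h1.2]

theorem law_R_gen (hp : p = 3 ∨ p = 5) (hq : 2 ≤ q) (hA : 1 ≤ A) (hl : 1 ≤ l)
    (hG : 0 < ZG p z M A k m q) (r : ℕ) (hr : r < l) :
    Real.log (Zq p z A m q) - 2 * GE p z M A k m q - 2 * q * l * Real.log p
      ≤ CE (Gs p M A k m) (Gw p z M A k m q) (fun ω => GY p k ω % (p : ℤ) ^ m) (Gγ p k)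
        + q * ∑ i ∈ (range m).filter (fun i => i % l = r ∧ i + l ≤ m),
            ∑ ω ∈ Gs p M A k m, Gw p z M A k m q ω *
              Real.log (GR p z M A k m l i (Gγ p k ω) (GY p k ω % (p : ℤ) ^ (i + l))) := by
  have hw : ∀ ω ∈ Gs p M A k m, 0 ≤ Gw p z M A k m q ω := fun ω _ => w_nonneg hp hG ω
  have hk : 0 < Zq p z A k q := Zq_pos (odd_of hp) A k q hA
  have hm : 0 < Zq p z A m q := Zq_pos (odd_of hp) A m q hA
  have h1 := CE_GY_ge hp hq hG hk hm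
  have h2 := gibbs_root hp hq hG
  have h3 : ∑ ω ∈ Gs p M A k m, Gw p z M A k m q ω *
      (Real.log (GG p z M A k m (ω.1 : ℤ)) - Real.log (GG p z M A k 0 (ω.1 : ℤ)) - 2 * l * Real.log p)
      ≤ ∑ ω ∈ Gs p M A k m, Gw p z M A k m q ω *
        ∑ i ∈ (range m).filter (fun i => i % l = r ∧ i + l ≤ m),
          Real.log (GR p z M A k m l i (Gγ p k ω) (GY p k ω % (p : ℤ) ^ (i + l))) :=
    esum_le hw fun ω _ hpos => logR_ge hp hq hl hr hpos
  have h4 : ∑ ω ∈ Gs p M A k m, Gw p z M A k m q ω *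
        ∑ i ∈ (range m).filter (fun i => i % l = r ∧ i + l ≤ m),
          Real.log (GR p z M A k m l i (Gγ p k ω) (GY p k ω % (p : ℤ) ^ (i + l)))
      = ∑ i ∈ (range m).filter (fun i => i % l = r ∧ i + l ≤ m),
            ∑ ω ∈ Gs p M A k m, Gw p z M A k m q ω *
              Real.log (GR p z M A k m l i (Gγ p k ω) (GY p k ω % (p : ℤ) ^ (i + l))) := by
    rw [sum_comm]
    refine sum_congr rfl fun ω _ => ?_
    rw [mul_sum]
  have h5 : ∑ ω ∈ Gs p M A k m, Gw p z M A k m q ω *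
      (Real.log (GG p z M A k m (ω.1 : ℤ)) - Real.log (GG p z M A k 0 (ω.1 : ℤ)) - 2 * l * Real.log p)
      = ∑ ω ∈ Gs p M A k m, Gw p z M A k m q ω *
        (Real.log (GG p z M A k m (ω.1 : ℤ)) - Real.log (GG p z M A k 0 (ω.1 : ℤ)))
        - 2 * l * Real.log p := by
    have h6 : 2 * (l : ℝ) * Real.log p
        = ∑ ω ∈ Gs p M A k m, Gw p z M A k m q ω * (2 * l * Real.log p) := by
      rw [← sum_mul, w_total (by omega) hG, one_mul]
    rw [h6, ← sum_sub_distrib]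
    refine sum_congr rfl fun ω _ => ?_
    rw [← h6]
    ring
  rw [h4, h5] at h3
  have h6 : (0 : ℝ) ≤ q := by positivity
  have h7 := mul_le_mul_of_nonneg_left h3 h6
  unfold GE at *
  linarith

end

end LawR

open LawR

section

variable {p q A k l M : ℕ} {z : ℝ} [hz : Fact (ZC p z)]

theorem Gw_nonneg (hp : p = 3 ∨ p = 5) (hG : 0 < ZG p z M A k (M * k) q) :
    ∀ ω ∈ Gs p M A k (M * k), 0 ≤ Gw p z M A k (M * k) q ω := fun ω _ => w_nonneg hp hG ω

theorem Gw_total (hp : p = 3 ∨ p = 5) (hq : 2 ≤ q) (hG : 0 < ZG p z M A k (M * k) q) :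
    ∑ ω ∈ Gs p M A k (M * k), Gw p z M A k (M * k) q ω = 1 := w_total (by omega) hG

theorem GR_nonneg (m i : ℕ) (g : ℕ × ℕ) (y : ℤ) : 0 ≤ GR p z M A k m l i g y :=
  div_nonneg (GG_nonneg _ _ _ _) (GG_nonneg _ _ _ _)

theorem GR_pos (hp : p = 3 ∨ p = 5) (hq : 2 ≤ q) (hG : 0 < ZG p z M A k (M * k) q) (i : ℕ)
    (hi : i + l ≤ M * k) : ∀ ω ∈ Gs p M A k (M * k), 0 < Gw p z M A k (M * k) q ω →
      0 < GR p z M A k (M * k) l i (Gγ p k ω) (GY p k ω % (p : ℤ) ^ (i + l)) := by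
  intro ω _ h
  rw [GR_eq hp hi]
  have h1 := GG_pos_of hq h
  exact div_pos (GG_pos_down hp hi h1) (GG_pos_down hp (by omega) h1)

theorem GR_sum (hp : p = 3 ∨ p = 5) (m i : ℕ) (hi : i + l ≤ m) (g : ℕ × ℕ) (y : ℤ) :
    ∑ v ∈ range (p ^ l), GR p z M A k m l i g (y + (p : ℤ) ^ i * v) ≤ (p : ℝ) ^ l := by
  have h0 : ∀ v ∈ range (p ^ l), GR p z M A k m l i g (y + (p : ℤ) ^ i * v)
      = GG p z M A k (i + l) (Gr p k m g (y + (p : ℤ) ^ i * v)) / GG p z M A k i (Gr p k m g y) :=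
    fun v _ => GR_add hp g y v
  rw [sum_congr rfl h0, ← sum_div]
  have h1 := window_sum (A := A) (k := k) (M := M) (z := z) hp hi g y (fun t => t)
  rw [h1]
  have h2 := GG_lift (M := M) (z := z) (odd_of hp) A k i l (Gr p k m g y)
  rcases (GG_nonneg (p := p) (M := M) (z := z) A k i (Gr p k m g y)).lt_or_eq with h3 | h3
  · rw [div_le_iff₀ h3]; exact h2
  · rw [← h3, div_zero]; positivity

theorem GR_sum_pow (hp : p = 3 ∨ p = 5) (hq : 2 ≤ q) (m i : ℕ) (hi : i + l ≤ m) (g : ℕ × ℕ)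
    (y : ℤ) (hA : 1 ≤ A) :
    ∑ v ∈ range (p ^ l), GR p z M A k m l i g (y + (p : ℤ) ^ i * v) ^ q ≤ Zq p z A l q := by
  have h0 : ∀ v ∈ range (p ^ l), GR p z M A k m l i g (y + (p : ℤ) ^ i * v) ^ q
      = GG p z M A k (i + l) (Gr p k m g (y + (p : ℤ) ^ i * v)) ^ q
        / GG p z M A k i (Gr p k m g y) ^ q := fun v _ => by
    rw [GR_add hp, div_pow]
  rw [sum_congr rfl h0, ← sum_div]
  have h1 := window_sum (A := A) (k := k) (M := M) (z := z) hp hi g y (fun t => t ^ q)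
  rw [h1]
  have h2 := GG_lift_pow (M := M) (z := z) (odd_of hp) (by omega : 1 ≤ q) A k i l (Gr p k m g y)
  rcases (GG_nonneg (p := p) (M := M) (z := z) A k i (Gr p k m g y)).lt_or_eq with h3 | h3
  · rw [div_le_iff₀ (by positivity), mul_comm]; exact h2
  · rw [← h3, zero_pow (by omega), div_zero]
    exact (Zq_pos (odd_of hp) A l q hA).le

/-- (e) -/
theorem law_R (hp : p = 3 ∨ p = 5) (hq : 2 ≤ q) (hk : 1 ≤ k) (hA : 1 ≤ A) (hl : 1 ≤ l)
    (hG : 0 < ZG p z M A k (M * k) q) (r : ℕ) (hr : r < l) :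
    Real.log (Zq p z A (M * k) q) - 2 * GE p z M A k (M * k) q - 2 * q * l * Real.log p
      ≤ CE (Gs p M A k (M * k)) (Gw p z M A k (M * k) q)
          (fun ω => GY p k ω % (p : ℤ) ^ (M * k)) (Gγ p k)
        + q * ∑ i ∈ (range (M * k)).filter (fun i => i % l = r ∧ i + l ≤ M * k),
            ∑ ω ∈ Gs p M A k (M * k), Gw p z M A k (M * k) q ω *
              Real.log (GR p z M A k (M * k) l i (Gγ p k ω) (GY p k ω % (p : ℤ) ^ (i + l))) :=
  law_R_gen hp hq hA hl hG r hr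

end

end Pool.Agent.Y966.NZ
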