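import Pool.Agent.Y966.NZ.Basic2
import Pool.Agent.H377R2.NK.Zsub

/-! Supremum over the cap, submultiplicativity, truncation, for the letter weights `th z^e`. -/

set_option autoImplicit false
set_option linter.unusedVariables false

namespace Pool.Agent.Y966.NZ

open Finset Pool.Agent.H320R2.PD Pool.Agent.H377R2.NK

section Zsub

variable {p M : ℕ} {z : ℝ} [hz : Fact (ZC p z)]

theorem Zq_le (hp : Odd p) (A n q : ℕ) : Zq p z A n q ≤ (p : ℝ) ^ (n * (q + 1)) := by
  unfold Zq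
  calc ∑ x ∈ range (p ^ n), DD p z A n (x : ℤ) ^ q ≤ ∑ x ∈ range (p ^ n), ((p : ℝ) ^ n) ^ q := by
        apply Finset.sum_le_sum
        intro x _
        exact pow_le_pow_left₀ (DD_nonneg A n _) (DD_le hp A n _) q
    _ = (p : ℝ) ^ (n * (q + 1)) := by
        rw [Finset.sum_const, Finset.card_range, nsmul_eq_mul]
        push_cast
        rw [← pow_mul, ← pow_add]
        congr 1
        ring

theorem Zq_nonneg (A n q : ℕ) : 0 ≤ Zq p z A n q :=
  Finset.sum_nonneg fun _ _ => pow_nonneg (DD_nonneg _ _ _) _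

theorem Zq_bdd (hp : Odd p) (n q : ℕ) : BddAbove (Set.range fun A : ℕ => Zq p z A n q) :=
  ⟨(p : ℝ) ^ (n * (q + 1)), by
    rintro _ ⟨A, rfl⟩
    exact Zq_le hp A n q⟩

theorem Zq_le_sZ (hp : Odd p) (A n q : ℕ) : Zq p z A n q ≤ sZ p z q n := by
  unfold sZ
  exact le_ciSup (Zq_bdd hp n q) A

/-- lower bound of the moments by the mean -/
theorem Zq_ge_mean (hp : Odd p) {q : ℕ} (hq : 1 ≤ q) (A n : ℕ) :
    (p : ℝ) ^ n * (1 - z ^ A) ^ (n * q) ≤ Zq p z A n q := by
  have hp1 : 1 ≤ p := hp.pos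
  have hpn : (0 : ℝ) < (p : ℝ) ^ n := by
    have : (0 : ℝ) < p := by exact_mod_cast hp1
    positivity
  have hj := jensen_pow (range (p ^ n)) (fun _ => (1 : ℝ)) (fun x => DD p z A n (x : ℤ))
    (fun _ _ => zero_le_one) (fun x _ => DD_nonneg A n _) hq
  simp only [one_mul, Finset.sum_const, Finset.card_range, nsmul_eq_mul, mul_one] at hj
  rw [DD_total hp] at hj
  have e1 : ((p ^ n : ℕ) : ℝ) = (p : ℝ) ^ n := by push_cast; rfl
  rw [e1] at hj
  have hZ : ∑ i ∈ range (p ^ n), DD p z A n (i : ℤ) ^ q = Zq p z A n q := rfl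
  rw [hZ] at hj
  have e2 : (((p : ℝ) * (1 - z ^ A)) ^ n) ^ q =
      ((p : ℝ) ^ n) ^ (q - 1) * ((p : ℝ) ^ n * (1 - z ^ A) ^ (n * q)) := by
    rw [mul_pow, mul_pow, ← mul_assoc, ← pow_succ, ← pow_mul (1 - z ^ A)]
    congr 2
    omega
  rw [e2] at hj
  exact le_of_mul_le_mul_left hj (by positivity)

/-- power mean and `A → ∞` -/
theorem le_sZ (hp : Odd p) {q : ℕ} (hq : 1 ≤ q) (n : ℕ) : (p : ℝ) ^ n ≤ sZ p z q n := by
  have hp1 : 1 ≤ p := hp.pos
  have hz0 := hz.out.pos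
  have hz1 := hz.out.lt
  have h1 : Filter.Tendsto (fun A : ℕ => (p : ℝ) ^ n * (1 - z ^ A) ^ (n * q)) Filter.atTop
      (nhds ((p : ℝ) ^ n * (1 - 0) ^ (n * q))) := by
    apply Filter.Tendsto.const_mul
    apply Filter.Tendsto.pow
    apply Filter.Tendsto.const_sub
    exact tendsto_pow_atTop_nhds_zero_of_lt_one hz0.le hz1
  simp only [sub_zero, one_pow, mul_one] at h1
  apply le_of_tendsto h1
  filter_upwards with A
  exact (Zq_ge_mean hp hq A n).trans (Zq_le_sZ hp A n q)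

theorem sZ_nonneg (hp : Odd p) (q n : ℕ) : 0 ≤ sZ p z q n :=
  (Zq_nonneg 0 n q).trans (Zq_le_sZ hp 0 n q)

theorem sZ_sub (hp : Odd p) {q : ℕ} (hq : 1 ≤ q) (k m : ℕ) :
    sZ p z q (k + m) ≤ sZ p z q k * sZ p z q m := by
  unfold sZ
  apply ciSup_le
  intro A
  refine (Zq_sub hp hq A k m).trans ?_
  exact mul_le_mul (Zq_le_sZ hp A k q) (Zq_le_sZ hp A m q) (Zq_nonneg _ _ _) (sZ_nonneg hp q k)

theorem Zq_mono {A A' : ℕ} (h : A ≤ A') (n q : ℕ) : Zq p z A n q ≤ Zq p z A' n q :=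
  Finset.sum_le_sum fun _ _ => pow_le_pow_left₀ (DD_nonneg _ _ _) (DD_mono _ _ h) _

/-- for all large caps the moments are almost maximal and the mean is almost one -/
theorem exists_cap (hp : Odd p) {q : ℕ} (hq : 1 ≤ q) (k n : ℕ) :
    ∃ A₀ : ℕ, 1 ≤ A₀ ∧ ∀ A, A₀ ≤ A → (p : ℝ) ^ k ≤ 2 ^ q * Zq p z A k q ∧
      sZ p z q n ≤ 2 * Zq p z A n q := by
  have hp1 : 1 ≤ p := hp.pos
  have hz0 := hz.out.pos
  have hz1 := hz.out.lt
  have h1 : Filter.Tendsto (fun A : ℕ => (1 - z ^ A) ^ k) Filter.atTop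
      (nhds ((1 - 0) ^ k)) := by
    apply Filter.Tendsto.pow
    apply Filter.Tendsto.const_sub
    exact tendsto_pow_atTop_nhds_zero_of_lt_one hz0.le hz1
  simp only [sub_zero, one_pow] at h1
  have h2 := h1.eventually (lt_mem_nhds (show (1 / 2 : ℝ) < 1 by norm_num))
  obtain ⟨A₁, hA₁⟩ := Filter.eventually_atTop.1 h2
  have hs : 0 < sZ p z q n := lt_of_lt_of_le (by
    have : (0 : ℝ) < p := by exact_mod_cast hp1
    positivity) (le_sZ hp hq n)
  obtain ⟨A₂, hA₂⟩ := exists_lt_of_lt_ciSup (show sZ p z q n / 2 < ⨆ A : ℕ, Zq p z A n q by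
    have : sZ p z q n = ⨆ A : ℕ, Zq p z A n q := rfl
    rw [← this]
    linarith)
  refine ⟨max 1 (max A₁ A₂), le_max_left _ _, fun A hA => ⟨?_, ?_⟩⟩
  · have hA' : A₁ ≤ A := le_trans (le_trans (le_max_left _ _) (le_max_right _ _)) hA
    have h3 := hA₁ A hA'
    have h4 : (1 / 2 : ℝ) ^ q ≤ (1 - z ^ A) ^ (k * q) := by
      rw [pow_mul]
      exact pow_le_pow_left₀ (by norm_num) h3.le q
    have h5 := Zq_ge_mean (z := z) hp hq A k
    have hpk : (0 : ℝ) ≤ (p : ℝ) ^ k := by positivity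
    calc (p : ℝ) ^ k = 2 ^ q * ((p : ℝ) ^ k * (1 / 2 : ℝ) ^ q) := by
          rw [one_div, inv_pow]
          field_simp
      _ ≤ 2 ^ q * ((p : ℝ) ^ k * (1 - z ^ A) ^ (k * q)) := by gcongr
      _ ≤ 2 ^ q * Zq p z A k q := by gcongr
  · have hA' : A₂ ≤ A := le_trans (le_trans (le_max_right _ _) (le_max_right _ _)) hA
    have := Zq_mono (p := p) (z := z) hA' n q
    linarith

/-! truncation -/

/-- the words of the tail -/
noncomputable def VT (p M A k : ℕ) (x : ℤ) : Finset (List ℕ) :=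
  (VW p A k x).filter fun w => ¬ w.sum ≤ M * k

/-- the tail mass -/
noncomputable def vt (p : ℕ) (z : ℝ) (M A k : ℕ) (x : ℤ) : ℝ := ∑ w ∈ VT p M A k x, zw p z w

theorem VT_shift (A k : ℕ) (x y : ℤ) : VT p M A k (x + (p : ℤ) ^ k * y) = VT p M A k x := by
  unfold VT
  rw [VW_shift]

/-- the tail of the martingale -/
noncomputable def tl (p : ℕ) (z : ℝ) (M A k i : ℕ) (x : ℤ) : ℝ :=
  ∑ w ∈ VT p M A k x, zw p z w * DD p z A i (en p w x)

theorem DD_split (hp : Odd p) (A k m : ℕ) (x : ℤ) :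
    DD p z A (k + m) x = GG p z M A k m x + tl p z M A k m x := by
  rw [DD_add hp]
  unfold GG tl VS VT
  exact (Finset.sum_filter_add_sum_filter_not _ _ _).symm

theorem tl_nonneg (A k m : ℕ) (x : ℤ) : 0 ≤ tl p z M A k m x := by
  unfold tl
  apply Finset.sum_nonneg
  intro w _
  exact mul_nonneg (zw_nonneg _) (DD_nonneg _ _ _)

theorem GG_nn (A k m : ℕ) (x : ℤ) : 0 ≤ GG p z M A k m x := by
  unfold GG
  apply Finset.sum_nonneg
  intro w _
  exact mul_nonneg (zw_nonneg _) (DD_nonneg _ _ _)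

theorem sum_tl_pow (hp : Odd p) {q : ℕ} (hq : 1 ≤ q) (A k m : ℕ) :
    ∑ x ∈ range (p ^ (k + m)), tl p z M A k m (x : ℤ) ^ q ≤
      (∑ a ∈ range (p ^ k), vt p z M A k (a : ℤ) ^ q) * Zq p z A m q := by
  have hp1 : 1 ≤ p := hp.pos
  rw [pow_add, sum_range_split _ _ (by positivity), Finset.sum_mul]
  apply Finset.sum_le_sum
  intro a _
  have hzn : ∀ w : List ℕ, 0 ≤ zw p z w := fun w => zw_nonneg w
  have hstep : ∀ y ∈ range (p ^ m), tl p z M A k m ((a + p ^ k * y : ℕ) : ℤ) ^ q ≤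
      vt p z M A k (a : ℤ) ^ (q - 1) * ∑ w ∈ VT p M A k (a : ℤ), zw p z w *
        DD p z A m (en p w (a : ℤ) + 2 ^ w.sum * (y : ℤ)) ^ q := by
    intro y _
    have hc : ((a + p ^ k * y : ℕ) : ℤ) = (a : ℤ) + (p : ℤ) ^ k * (y : ℤ) := by
      push_cast
      ring
    unfold tl
    rw [hc, VT_shift]
    refine (jensen_pow _ _ _ (fun w _ => hzn w) (fun w _ => DD_nonneg _ _ _) hq).trans ?_
    apply le_of_eq
    congr 1
    apply Finset.sum_congr rfl
    intro w hw
    have hl : w.length = k := by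
      unfold VT at hw
      exact (mem_VW.1 (Finset.mem_filter.1 hw).1).1
    have h1 := en_shift (w := w) hp1 (a : ℤ) (y : ℤ)
    rw [hl] at h1
    rw [h1]
  calc ∑ y ∈ range (p ^ m), tl p z M A k m ((a + p ^ k * y : ℕ) : ℤ) ^ q
      ≤ ∑ y ∈ range (p ^ m), vt p z M A k (a : ℤ) ^ (q - 1) * ∑ w ∈ VT p M A k (a : ℤ), zw p z w *
        DD p z A m (en p w (a : ℤ) + 2 ^ w.sum * (y : ℤ)) ^ q := Finset.sum_le_sum hstep
    _ = vt p z M A k (a : ℤ) ^ (q - 1) * ∑ w ∈ VT p M A k (a : ℤ), zw p z w *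
        ∑ y ∈ range (p ^ m), DD p z A m (en p w (a : ℤ) + 2 ^ w.sum * (y : ℤ)) ^ q := by
        rw [← Finset.mul_sum, Finset.sum_comm]
        congr 1
        apply Finset.sum_congr rfl
        intro w _
        rw [Finset.mul_sum]
    _ = vt p z M A k (a : ℤ) ^ (q - 1) * ∑ w ∈ VT p M A k (a : ℤ), zw p z w * Zq p z A m q := by
        congr 1
        apply Finset.sum_congr rfl
        intro w _
        congr 1
        have hcop : IsCoprime ((2 : ℤ) ^ w.sum) (p : ℤ) := by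
          apply IsCoprime.pow_left
          have h2 : Nat.Coprime 2 p := Nat.coprime_two_left.2 hp
          exact_mod_cast Nat.isCoprime_iff_coprime.2 h2
        exact sum_affine hp1 m (2 ^ w.sum) (en p w (a : ℤ)) hcop
          (h := fun x => DD p z A m x ^ q) (fun x y => by simp only [DD_shift])
    _ = vt p z M A k (a : ℤ) ^ q * Zq p z A m q := by
        rw [← Finset.sum_mul, ← mul_assoc]
        congr 1
        have : ∑ w ∈ VT p M A k (a : ℤ), zw p z w = vt p z M A k (a : ℤ) := rfl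
        rw [this, ← pow_succ]
        congr 1
        omega

/-- a larger weight `z1 = (1 + z) / 2` -/
noncomputable def z1 (z : ℝ) : ℝ := (1 + z) / 2

/-- exponential decay of the tail -/
noncomputable def rho (p : ℕ) (z : ℝ) (M : ℕ) : ℝ :=
  (z / z1 z) ^ M * (th p z * (z1 z / (1 - z1 z)))

theorem vt_le (A k : ℕ) (x : ℤ) : vt p z M A k x ≤ rho p z M ^ k := by
  have h := hz.out
  have hz0 := h.pos
  have hzl := h.lt
  have ht := th_pos (p := p) (z := z)
  have hz1p : 0 < z1 z := by unfold z1; linarith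
  have hz1l : z1 z < 1 := by unfold z1; linarith
  set r : ℝ := z / z1 z with hr
  have hr0 : 0 < r := by positivity
  have hr1 : r ≤ 1 := by
    rw [hr, div_le_one hz1p]
    unfold z1
    linarith
  have hzz : z = r * z1 z := by
    rw [hr]
    field_simp
  have h1 : vt p z M A k x ≤ ∑ w ∈ FW A k, th p z ^ k * (r ^ (M * k) * z1 z ^ w.sum) := by
    unfold vt
    calc ∑ w ∈ VT p M A k x, zw p z w
        ≤ ∑ w ∈ VT p M A k x, th p z ^ k * (r ^ (M * k) * z1 z ^ w.sum) := by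
          apply Finset.sum_le_sum
          intro w hw
          have hl : w.length = k := by
            unfold VT at hw
            exact (mem_VW.1 (Finset.mem_filter.1 hw).1).1
          have hs : M * k ≤ w.sum := by
            unfold VT at hw
            have := (Finset.mem_filter.1 hw).2
            omega
          unfold zw
          rw [hl]
          apply mul_le_mul_of_nonneg_left _ (by positivity)
          conv_lhs => rw [hzz, mul_pow]
          exact mul_le_mul_of_nonneg_right (pow_le_pow_of_le_one hr0.le hr1 hs) (by positivity)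
      _ ≤ _ := by
          apply Finset.sum_le_sum_of_subset_of_nonneg
          · intro w hw
            unfold VT VW at hw
            exact (Finset.mem_filter.1 (Finset.mem_filter.1 hw).1).1
          · intro w _ _
            positivity
  refine h1.trans ?_
  rw [← Finset.mul_sum, ← Finset.mul_sum, Pool.Agent.H320R2.PD.sum_pow]
  have h2 : (∑ e ∈ Finset.Icc 1 A, z1 z ^ e) ^ k ≤ (z1 z / (1 - z1 z)) ^ k :=
    pow_le_pow_left₀ (Finset.sum_nonneg fun e _ => by positivity)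
      (sum_Icc_pow_le A hz1p.le hz1l) k
  calc th p z ^ k * (r ^ (M * k) * (∑ e ∈ Finset.Icc 1 A, z1 z ^ e) ^ k)
      ≤ th p z ^ k * (r ^ (M * k) * (z1 z / (1 - z1 z)) ^ k) := by
        apply mul_le_mul_of_nonneg_left _ (by positivity)
        exact mul_le_mul_of_nonneg_left h2 (by positivity)
    _ = rho p z M ^ k := by
        unfold rho
        rw [← hr, mul_pow, mul_pow, pow_mul]
        ring

omit hz in
theorem rho_nonneg (h : ZC p z) : 0 ≤ rho p z M := by
  have : Fact (ZC p z) := ⟨h⟩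
  have ht := th_pos (p := p) (z := z)
  have hz0 := h.pos
  have hzl := h.lt
  have hz1p : 0 < z1 z := by unfold z1; linarith
  have hz1l : 0 < 1 - z1 z := by unfold z1; linarith
  unfold rho
  positivity

omit hz in
/-- for all large cutoffs the tail is small -/
theorem exists_M (h : ZC p z) : ∃ M : ℕ, 1 ≤ M ∧
    (p : ℝ) * rho p z M ^ 2 ≤ 1 / 100 ∧ rho p z M ≤ 1 := by
  have : Fact (ZC p z) := ⟨h⟩
  have ht := th_pos (p := p) (z := z)
  have hz0 := h.pos
  have hzl := h.lt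
  have hz1p : 0 < z1 z := by unfold z1; linarith
  have hz1l : 0 < 1 - z1 z := by unfold z1; linarith
  have hr0 : 0 ≤ z / z1 z := by positivity
  have hr1 : z / z1 z < 1 := by
    rw [div_lt_one hz1p]
    unfold z1
    linarith
  have hp1 : (1 : ℝ) ≤ p := by exact_mod_cast h.p1
  set K : ℝ := th p z * (z1 z / (1 - z1 z)) with hK
  have hK0 : 0 < K := by positivity
  have ht1 : Filter.Tendsto (fun M : ℕ => (z / z1 z) ^ M * K) Filter.atTop (nhds (0 * K)) :=
    (tendsto_pow_atTop_nhds_zero_of_lt_one hr0 hr1).mul_const K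
  rw [zero_mul] at ht1
  have hc : (0 : ℝ) < 1 / (10 * p) := by positivity
  obtain ⟨M, hM1, hM2⟩ := ((ht1.eventually (gt_mem_nhds hc)).and
    (Filter.eventually_ge_atTop 1)).exists
  have hM1' : rho p z M < 1 / (10 * p) := hM1
  have hnn := rho_nonneg (M := M) h
  refine ⟨M, hM2, ?_, ?_⟩
  · have h1 : rho p z M ^ 2 ≤ (1 / (10 * p)) ^ 2 := pow_le_pow_left₀ hnn hM1'.le 2
    calc (p : ℝ) * rho p z M ^ 2 ≤ p * (1 / (10 * p)) ^ 2 :=
          mul_le_mul_of_nonneg_left h1 (by positivity)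
      _ = 1 / 100 * (1 / p) := by field_simp; norm_num
      _ ≤ 1 / 100 * 1 := by
          apply mul_le_mul_of_nonneg_left _ (by norm_num)
          rw [div_le_one (by positivity)]
          exact hp1
      _ = 1 / 100 := by norm_num
  · have h1 : (1 : ℝ) / (10 * p) ≤ 1 := by
      rw [div_le_one (by positivity)]
      linarith
    linarith

/-- the truncation at size `M k` is harmless -/
theorem ZG_ge (hodd : Odd p) {q : ℕ} (hq : 2 ≤ q) (A k m : ℕ)
    (hr1 : (p : ℝ) * rho p z M ^ 2 ≤ 1 / 100) (hr2 : rho p z M ≤ 1)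
    (h : 2 ^ q * Zq p z A m q ≤ 100 ^ k * Zq p z A (k + m) q) :
    Zq p z A (k + m) q ≤ 2 ^ q * ZG p z M A k m q := by
  have hp1 : 1 ≤ p := hodd.pos
  have hρ0 : 0 ≤ rho p z M := rho_nonneg hz.out
  have hvt : ∀ a : ℤ, vt p z M A k a ≤ rho p z M ^ k := fun a => vt_le A k a
  set ρ : ℝ := rho p z M with hρ
  clear_value ρ
  -- split
  have h1 : Zq p z A (k + m) q ≤ 2 ^ (q - 1) * ZG p z M A k m q +
      2 ^ (q - 1) * ∑ x ∈ range (p ^ (k + m)), tl p z M A k m (x : ℤ) ^ q := by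
    unfold Zq ZG
    rw [Finset.mul_sum, Finset.mul_sum, ← Finset.sum_add_distrib]
    apply Finset.sum_le_sum
    intro x _
    rw [DD_split (M := M) hodd, ← mul_add]
    exact add_pow_le (GG_nn _ _ _ _) (tl_nonneg _ _ _ _) q
  have h2 := sum_tl_pow (M := M) (z := z) hodd (show 1 ≤ q by omega) A k m
  have h3 : ∑ a ∈ range (p ^ k), vt p z M A k (a : ℤ) ^ q ≤ (1 / 100) ^ k := by
    calc ∑ a ∈ range (p ^ k), vt p z M A k (a : ℤ) ^ q ≤ ∑ a ∈ range (p ^ k), (ρ ^ k) ^ 2 := by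
          apply Finset.sum_le_sum
          intro a _
          have hv := hvt (a : ℤ)
          have hv0 : 0 ≤ vt p z M A k (a : ℤ) := by
            unfold vt
            exact Finset.sum_nonneg fun w _ => zw_nonneg _
          calc vt p z M A k (a : ℤ) ^ q ≤ (ρ ^ k) ^ q := pow_le_pow_left₀ hv0 hv q
            _ ≤ (ρ ^ k) ^ 2 := pow_le_pow_of_le_one (by positivity) (pow_le_one₀ hρ0 hr2) hq
      _ = (p * ρ ^ 2) ^ k := by
          rw [Finset.sum_const, Finset.card_range, nsmul_eq_mul, mul_pow, ← pow_mul, ← pow_mul,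
            mul_comm k 2]
          push_cast
          rfl
      _ ≤ (1 / 100) ^ k := pow_le_pow_left₀ (by positivity) hr1 k
  have hZ0 := Zq_nonneg (p := p) (z := z) A m q
  have h4 : ∑ x ∈ range (p ^ (k + m)), tl p z M A k m (x : ℤ) ^ q ≤
      (1 / 100) ^ k * Zq p z A m q :=
    h2.trans (mul_le_mul_of_nonneg_right h3 hZ0)
  have h5 : 2 ^ q * ((1 / 100 : ℝ) ^ k * Zq p z A m q) ≤ Zq p z A (k + m) q := by
    have h6 : (1 / 100 : ℝ) ^ k * (2 ^ q * Zq p z A m q) ≤
        (1 / 100 : ℝ) ^ k * (100 ^ k * Zq p z A (k + m) q) :=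
      mul_le_mul_of_nonneg_left h (by positivity)
    have h7 : (1 / 100 : ℝ) ^ k * (100 ^ k * Zq p z A (k + m) q) = Zq p z A (k + m) q := by
      rw [← mul_assoc, ← mul_pow]
      norm_num
    rw [h7] at h6
    linarith
  have h8 : (2 : ℝ) ^ q = 2 * 2 ^ (q - 1) := by
    rw [← pow_succ']
    congr 1
    omega
  rw [h8] at h5 ⊢
  have h9 : (0 : ℝ) < 2 ^ (q - 1) := by positivity
  nlinarith [mul_le_mul_of_nonneg_left h4 h9.le]

end Zsub

end Pool.Agent.Y966.NZ
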